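import Mathlib

/-!
Hopf's secant argument for polygonal paths with unit steps and vertices at mutual distance at
least one: turning numbers of open and closed paths.
-/

set_option autoImplicit false

namespace HexPF

open Complex

/-- the signed angle from `u` to `v` -/
noncomputable def th (u v : ℂ) : ℝ := Complex.arg (v / u)

/-- acute angle -/
def Ac (u v : ℂ) : Prop := 0 < (v / u).re

lemma Ac.ne_left {u v : ℂ} (h : Ac u v) : u ≠ 0 := by
  rintro rfl; simp [Ac] at h

lemma Ac.ne_right {u v : ℂ} (h : Ac u v) : v ≠ 0 := by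
  rintro rfl; simp [Ac] at h

lemma Ac.abs_lt {u v : ℂ} (h : Ac u v) : |th u v| < Real.pi / 2 :=
  Complex.abs_arg_lt_pi_div_two_iff.mpr (Or.inl h)

lemma th_neg (u v : ℂ) : th (-u) (-v) = th u v := by simp [th, neg_div_neg_eq]

lemma th_add {u v w : ℂ} (hu : u ≠ 0) (hv : v ≠ 0) (hw : w ≠ 0)
    (h : th u v + th v w ∈ Set.Ioc (-Real.pi) Real.pi) : th u w = th u v + th v w := by
  have : w / u = (v / u) * (w / v) := by field_simp
  unfold th at *
  rw [this, Complex.arg_mul (div_ne_zero hv hu) (div_ne_zero hw hv) h]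

lemma Ac.add {u v w : ℂ} (h1 : Ac u v) (h2 : Ac v w) : th u w = th u v + th v w := by
  refine th_add h1.ne_left h1.ne_right h2.ne_right ?_
  have a := _root_.abs_lt.mp h1.abs_lt
  have b := _root_.abs_lt.mp h2.abs_lt
  constructor <;> linarith [a.1, a.2, b.1, b.2]

/-- the points `b`, `b'` at distance one are seen from `a` under an acute angle -/
lemma ac_of_dist {a b b' : ℂ} (h : ‖b' - b‖ = 1) (h1 : 1 ≤ ‖b - a‖) (h2 : 1 ≤ ‖b' - a‖) :
    Ac (b - a) (b' - a) := by
  unfold Ac
  rw [Complex.div_re]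
  have hpos : 0 < normSq (b - a) := by
    rw [normSq_pos]; intro h0; rw [h0] at h1; simp at h1; linarith
  have e : ∀ z : ℂ, ‖z‖ ^ 2 = z.re ^ 2 + z.im ^ 2 := by
    intro z; rw [Complex.sq_norm, Complex.normSq_apply]; ring
  have e0 := e (b' - b)
  have e1 := e (b - a)
  have e2 := e (b' - a)
  rw [h] at e0
  have g1 : 1 ≤ ‖b - a‖ ^ 2 := by nlinarith
  have g2 : 1 ≤ ‖b' - a‖ ^ 2 := by nlinarith
  rw [← add_div]
  apply div_pos _ hpos
  simp only [Complex.sub_re, Complex.sub_im] at *
  nlinarith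

lemma ac_symm_view {a a' b : ℂ} (h : ‖a' - a‖ = 1) (h1 : 1 ≤ ‖b - a‖) (h2 : 1 ≤ ‖b - a'‖) :
    Ac (b - a) (b - a') := by
  have := ac_of_dist (a := b) (b := a) (b' := a') h (by rwa [norm_sub_rev]) (by rwa [norm_sub_rev])
  unfold Ac at *
  rwa [← neg_div_neg_eq, neg_sub, neg_sub]

/-- the square lemma -/
lemma square {a a' b b' : ℂ} (h : ‖a' - a‖ = 1) (h' : ‖b' - b‖ = 1)
    (h1 : 1 ≤ ‖b - a‖) (h2 : 1 ≤ ‖b' - a‖) (h3 : 1 ≤ ‖b - a'‖) (h4 : 1 ≤ ‖b' - a'‖) :
    th (b - a) (b' - a) + th (b' - a) (b' - a') = th (b - a) (b - a') + th (b - a') (b' - a') := by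
  rw [← (ac_of_dist h' h1 h2).add (ac_symm_view h h2 h4),
    ← (ac_symm_view h h1 h3).add (ac_of_dist h' h3 h4)]

/-- the triangle lemma -/
lemma triangle {a b c : ℂ} (h : ‖b - a‖ = 1) (h' : ‖c - b‖ = 1) (h1 : 1 ≤ ‖c - a‖) :
    th (b - a) (c - b) = th (b - a) (c - a) + th (c - a) (c - b) :=
  (ac_of_dist h' h.ge h1).add (ac_symm_view h h1 h'.ge)

/-- total angle swept by a path seen from `x` -/
noncomputable def N (x : ℂ) : List ℂ → ℝ
  | a :: b :: l => th (a - x) (b - x) + N x (b :: l)
  | _ => 0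

/-- total turning of a path -/
noncomputable def T : List ℂ → ℝ
  | a :: b :: c :: l => th (b - a) (c - b) + T (b :: c :: l)
  | _ => 0

@[simp] lemma N_cons₂ (x a b : ℂ) (l : List ℂ) :
    N x (a :: b :: l) = th (a - x) (b - x) + N x (b :: l) := rfl
@[simp] lemma N_nil (x : ℂ) : N x [] = 0 := rfl
@[simp] lemma N_single (x a : ℂ) : N x [a] = 0 := rfl
@[simp] lemma T_cons₃ (a b c : ℂ) (l : List ℂ) :
    T (a :: b :: c :: l) = th (b - a) (c - b) + T (b :: c :: l) := rfl
@[simp] lemma T_nil : T [] = 0 := rfl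
@[simp] lemma T_single (a : ℂ) : T [a] = 0 := rfl
@[simp] lemma T_pair (a b : ℂ) : T [a, b] = 0 := rfl

/-- unit steps -/
def St (l : List ℂ) : Prop := l.IsChain (fun a b => ‖b - a‖ = 1)

/-- mutual distances at least one -/
def Far (l : List ℂ) : Prop := l.Pairwise (fun a b => 1 ≤ ‖b - a‖)

/-- `N` of a concatenation -/
lemma N_append (x : ℂ) (l : List ℂ) (a b : ℂ) (m : List ℂ) :
    N x (l ++ [a] ++ b :: m) = N x (l ++ [a]) + th (a - x) (b - x) + N x (b :: m) := by
  induction l with
  | nil => simp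
  | cons c l ih =>
    rcases l with _ | ⟨d, l⟩
    · simp; ring
    · simp only [List.cons_append, N_cons₂, List.append_assoc, List.nil_append] at *
      rw [ih]; ring

/-- moving the viewpoint along one edge -/
lemma N_move {a a' : ℂ} (h : ‖a' - a‖ = 1) : ∀ (l : List ℂ) (c z : ℂ),
    St (c :: l) → (∀ u ∈ c :: l, 1 ≤ ‖u - a‖) → (∀ u ∈ c :: l, 1 ≤ ‖u - a'‖) →
    (c :: l).getLast? = some z →
    N a' (c :: l) = N a (c :: l) + th (z - a) (z - a') - th (c - a) (c - a') := by
  intro l
  induction l with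
  | nil =>
    intro c z _ _ _ hz
    simp only [List.getLast?_singleton, Option.some.injEq] at hz
    subst hz
    simp
  | cons d l ih =>
    intro c z hs h1 h2 hz
    have hs' : St (d :: l) := by
      unfold St at *
      exact (List.isChain_cons_cons.mp hs).2
    have hcd : ‖d - c‖ = 1 := by
      unfold St at hs
      exact (List.isChain_cons_cons.mp hs).1
    have := ih d z hs' (fun u hu => h1 u (List.mem_cons_of_mem _ hu))
      (fun u hu => h2 u (List.mem_cons_of_mem _ hu)) (by rwa [List.getLast?_cons_cons] at hz)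
    rw [N_cons₂, N_cons₂, this]
    have sq := square h hcd (h1 c (by simp)) (h1 d (by simp)) (h2 c (by simp)) (h2 d (by simp))
    linarith

/-- Hopf's formula for open paths -/
lemma hopf : ∀ (l : List ℂ) (a z : ℂ), St (a :: l ++ [z]) → Far (a :: l ++ [z]) →
    T (a :: l ++ [z]) = N a (l ++ [z]) + N z (a :: l) := by
  intro l
  induction l with
  | nil => intro a z _ _; simp
  | cons b l ih =>
    intro a z hs hf
    have hs' : St (b :: l ++ [z]) := by
      unfold St at *
      exact (List.isChain_cons_cons.mp hs).2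
    have hf' : Far (b :: l ++ [z]) := by
      unfold Far at *
      exact (List.pairwise_cons.mp hf).2
    have hfa : ∀ u ∈ b :: l ++ [z], 1 ≤ ‖u - a‖ := by
      unfold Far at hf
      exact (List.pairwise_cons.mp hf).1
    have hfb : ∀ u ∈ l ++ [z], 1 ≤ ‖u - b‖ := by
      unfold Far at hf'
      exact (List.pairwise_cons.mp hf').1
    have hab : ‖b - a‖ = 1 := by
      unfold St at hs
      exact (List.isChain_cons_cons.mp hs).1
    have key := ih b z hs' hf'
    obtain ⟨c, m, hm⟩ : ∃ c m, l ++ [z] = c :: m := by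
      rcases l with _ | ⟨c, l⟩
      · exact ⟨z, [], rfl⟩
      · exact ⟨c, l ++ [z], rfl⟩
    have hz : (c :: m).getLast? = some z := by rw [← hm]; simp
    have hmv : N b (c :: m) = N a (c :: m) + th (z - a) (z - b) - th (c - a) (c - b) := by
      apply N_move hab m c z
      · rw [← hm]; unfold St at *
        rw [List.cons_append] at hs'
        exact hs'.tail
      · intro u hu; rw [← hm] at hu; exact hfa u (by simp at hu ⊢; tauto)
      · intro u hu; rw [← hm] at hu; exact hfb u hu
      · exact hz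
    have hbc : ‖c - b‖ = 1 := by
      unfold St at hs'
      rw [List.cons_append, hm] at hs'
      exact (List.isChain_cons_cons.mp hs').1
    have hac : 1 ≤ ‖c - a‖ := by
      apply hfa
      have : c ∈ l ++ [z] := by rw [hm]; simp
      simp at this ⊢; tauto
    have tri := triangle hab hbc hac
    rw [hm] at key
    simp only [List.cons_append] at key ⊢
    rw [hm]
    rw [hm] at key
    rw [T_cons₃, key, N_cons₂, N_cons₂, hmv, tri]
    have : th (a - z) (b - z) = th (z - a) (z - b) := by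
      rw [← th_neg (a - z) (b - z), neg_sub, neg_sub]
    rw [this]; ring

/-- Hopf's formula for closed paths: `q0 :: q1 :: m ++ [z]` closed up to `q0` -/
lemma hopf_closed (m : List ℂ) (q0 q1 z : ℂ) (hs : St (q0 :: q1 :: m ++ [z]))
    (hf : Far (q0 :: q1 :: m ++ [z])) (hz : ‖q0 - z‖ = 1) :
    T (q0 :: q1 :: m ++ [z] ++ [q0]) =
      2 * N q0 (q1 :: m ++ [z]) + th (z - q0) (z - q1) + th (z - q1) (q0 - q1) := by
  -- open path q1 :: m ++ [z] ++ [q0]
  have h01 : ‖q1 - q0‖ = 1 := by
    unfold St at hs; exact (List.isChain_cons_cons.mp hs).1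
  have hs1 : St (q1 :: m ++ [z]) := by
    unfold St at *; exact (List.isChain_cons_cons.mp hs).2
  have hf0 : ∀ u ∈ q1 :: m ++ [z], 1 ≤ ‖u - q0‖ := by
    unfold Far at hf; exact (List.pairwise_cons.mp hf).1
  have hf1 : Far (q1 :: m ++ [z]) := by
    unfold Far at *; exact (List.pairwise_cons.mp hf).2
  have hfq1 : ∀ u ∈ m ++ [z], 1 ≤ ‖u - q1‖ := by
    unfold Far at hf1; exact (List.pairwise_cons.mp hf1).1
  obtain ⟨c, k, hk⟩ : ∃ c k, m ++ [z] = c :: k := by
    rcases m with _ | ⟨c, m⟩
    · exact ⟨z, [], rfl⟩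
    · exact ⟨c, m ++ [z], rfl⟩
  have hzl : (c :: k).getLast? = some z := by rw [← hk]; simp
  have hs2 : St (q1 :: (m ++ [z]) ++ [q0]) := by
    unfold St at *
    rw [← List.cons_append] 
    rw [List.isChain_append]
    refine ⟨hs1, by simp, ?_⟩
    intro x hx y hy
    have hx' : x = z := by
      rw [List.cons_append, List.getLast?_cons] at hx
      simpa using hx.symm
    simp at hy
    subst hy; subst hx'
    exact hz
  have hf2 : Far (q1 :: (m ++ [z]) ++ [q0]) := by
    unfold Far at *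
    rw [List.pairwise_append]
    refine ⟨hf1, by simp, ?_⟩
    intro x hx y hy
    simp at hy
    subst hy
    rw [norm_sub_rev]
    exact hf0 x hx
  have hop := hopf (m ++ [z]) q1 q0 hs2 hf2
  have hmv : N q1 (c :: k) = N q0 (c :: k) + th (z - q0) (z - q1) - th (c - q0) (c - q1) := by
    apply N_move h01 k c z
    · rw [← hk]; unfold St at *
      rw [List.cons_append] at hs1
      exact hs1.tail
    · intro u hu; rw [← hk] at hu; exact hf0 u (by simp at hu ⊢; tauto)
    · intro u hu; rw [← hk] at hu; exact hfq1 u hu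
    · exact hzl
  have h1c : ‖c - q1‖ = 1 := by
    unfold St at hs1
    rw [List.cons_append, hk] at hs1
    exact (List.isChain_cons_cons.mp hs1).1
  have h0c : 1 ≤ ‖c - q0‖ := by
    apply hf0
    have : c ∈ m ++ [z] := by rw [hk]; simp
    simp at this ⊢; tauto
  have tri := triangle h01 h1c h0c
  have hN : N q1 (m ++ [z] ++ [q0]) = N q1 (m ++ [z]) + th (z - q1) (q0 - q1) := by
    have := N_append q1 m z q0 []
    simpa using this
  rw [hN] at hop
  have e1 : T (q0 :: q1 :: m ++ [z] ++ [q0]) = th (q1 - q0) (c - q1) + T (q1 :: (m ++ [z]) ++ [q0]) := by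
    simp only [List.cons_append]
    rw [hk]
    simp only [List.cons_append]
    rw [T_cons₃]
  rw [e1, hop, List.cons_append, hk, N_cons₂, hmv, tri]
  ring

end HexPF
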