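import Pool.Agent.HexPF.Turn

/-!
The parafermionic identity of Duminil-Copin and Smirnov on finite subgraphs of a honeycomb graph,
for walks starting at a boundary point that sees the whole domain in a half-plane.
-/

set_option autoImplicit false

namespace HexPF

open Complex

/-- A honeycomb graph drawn in the plane with unit edges. -/
structure HexG (V : Type) [DecidableEq V] where
  /-- position -/
  pos : V → ℂ
  /-- neighbours -/
  nb : V → Finset V
  symm : ∀ {u v}, v ∈ nb u → u ∈ nb v
  far : ∀ {u v}, (nb u).Nonempty → (nb v).Nonempty → u ≠ v → 1 ≤ ‖pos v - pos u‖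
  unit : ∀ {u v}, v ∈ nb u → ‖pos v - pos u‖ = 1
  tri : ∀ {u v}, u ∈ nb v → ∃ a b, nb v = {u, a, b} ∧ a ≠ b ∧ a ≠ u ∧ b ≠ u ∧
    pos a - pos v = (pos v - pos u) * ee (Real.pi / 3) ∧
    pos b - pos v = (pos v - pos u) * ee (-(Real.pi / 3))

variable {V : Type} [DecidableEq V] (G : HexG V)

/-- the walks in `Ω` (listed backwards, ending with the outer starting point `v0`) with `n + 1`
vertices in `Ω` -/
def W (Ω : Finset V) (v0 v1 : V) : ℕ → Finset (List V)
  | 0 => {[v1, v0]}
  | n + 1 => (W Ω v0 v1 n).biUnion fun M =>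
      match M with
      | v :: _ => ((G.nb v).filter fun w => w ∈ Ω ∧ w ∉ M).image fun w => w :: M
      | [] => ∅

variable {G} {Ω : Finset V} {v0 v1 : V}

lemma mem_W_succ {n : ℕ} {M : List V} : M ∈ W G Ω v0 v1 (n + 1) ↔
    ∃ w v K, M = w :: v :: K ∧ v :: K ∈ W G Ω v0 v1 n ∧ w ∈ G.nb v ∧ w ∈ Ω ∧ w ∉ v :: K := by
  simp only [W, Finset.mem_biUnion]
  constructor
  · rintro ⟨K, hK, hM⟩
    rcases K with _ | ⟨v, K⟩
    · simp at hM
    · simp only [Finset.mem_image, Finset.mem_filter] at hM
      obtain ⟨w, ⟨h1, h2, h3⟩, rfl⟩ := hM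
      exact ⟨w, v, K, rfl, hK, h1, h2, h3⟩
  · rintro ⟨w, v, K, rfl, h1, h2, h3, h4⟩
    refine ⟨v :: K, h1, ?_⟩
    simp only [Finset.mem_image, Finset.mem_filter]
    exact ⟨w, ⟨h2, h3, h4⟩, rfl⟩

/-- structure of walks: `M = l ++ [v0]`, with `l` a duplicate free list in `Ω`, ending with `v1` -/
lemma mem_W_iff (hadj : v1 ∈ G.nb v0) (h1 : v1 ∈ Ω) (h0 : v0 ∉ Ω) {n : ℕ} {M : List V} :
    M ∈ W G Ω v0 v1 n ↔ M.length = n + 2 ∧ M.Nodup ∧ M.IsChain (fun a b => a ∈ G.nb b) ∧
      ∃ k, M = k ++ [v1, v0] ∧ ∀ u ∈ k, u ∈ Ω := by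
  induction n generalizing M with
  | zero =>
    simp only [W, Finset.mem_singleton]
    constructor
    · rintro rfl
      refine ⟨rfl, ?_, ?_, [], rfl, by simp⟩
      · simp; rintro rfl; exact h0 h1
      · simp [hadj]
    · rintro ⟨h2, -, -, k, rfl, -⟩
      simp at h2
      subst h2; rfl
  | succ n ih =>
    rw [mem_W_succ]
    constructor
    · rintro ⟨w, v, K, rfl, hK, hw, hwΩ, hwn⟩
      obtain ⟨a, b, c, k, hk, hkΩ⟩ := ih.mp hK
      refine ⟨by simp at a ⊢; omega, ?_, ?_, w :: k, by rw [hk]; rfl, ?_⟩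
      · exact List.nodup_cons.mpr ⟨hwn, b⟩
      · exact List.isChain_cons_cons.mpr ⟨hw, c⟩
      · intro u hu
        rcases List.mem_cons.mp hu with rfl | hu
        · exact hwΩ
        · exact hkΩ u hu
    · rintro ⟨hlen, hnd, hch, k, rfl, hkΩ⟩
      rcases k with _ | ⟨w, k⟩
      · simp at hlen
      · have hne : k ++ [v1, v0] ≠ [] := by simp
        obtain ⟨v, K, hvK⟩ := List.exists_cons_of_ne_nil hne
        refine ⟨w, v, K, by rw [← hvK]; rfl, ?_, ?_, hkΩ w (by simp), ?_⟩
        · rw [← hvK]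
          rw [ih]
          refine ⟨by simp at hlen ⊢; omega, ?_, ?_, k, rfl, fun u hu => hkΩ u (by simp [hu])⟩
          · exact (List.nodup_cons.mp hnd).2
          · rw [List.cons_append, hvK] at hch
            rw [hvK]
            exact (List.isChain_cons_cons.mp hch).2
        · rw [List.cons_append, hvK] at hch
          exact (List.isChain_cons_cons.mp hch).1
        · rw [← hvK]
          exact (List.nodup_cons.mp hnd).1

/-- the critical fugacity `1 / (2 cos (π / 8))` -/
noncomputable def xc : ℝ := 1 / (2 * Real.cos (Real.pi / 8))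

lemma cos_pi_eight_pos : 0 < Real.cos (Real.pi / 8) :=
  Real.cos_pos_of_mem_Ioo ⟨by linarith [Real.pi_pos], by linarith [Real.pi_pos]⟩

lemma xc_pos : 0 < xc := by unfold xc; have := cos_pi_eight_pos; positivity

lemma xc_mul : xc * (2 * Real.cos (Real.pi / 8)) = 1 := by
  unfold xc; have := cos_pi_eight_pos; field_simp

lemma xc_eq : xc = 1 / Real.sqrt (2 + Real.sqrt 2) := by
  unfold xc
  rw [Real.cos_pi_div_eight]
  congr 1
  ring

variable (G) in
/-- weight of a walk with last step `v → w`, listed backwards as `w :: v :: K`: direction times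
phase times fugacity -/
noncomputable def wt (M : List V) : ℂ :=
  match M with
  | w :: v :: K => (G.pos w - G.pos v) * ee (5 / 8 * T ((w :: v :: K).map G.pos)) *
      ((xc : ℂ) ^ K.length)
  | _ => 0

variable (G) in
/-- the next vertices after `M = v :: u :: K` -/
def nxt (M : List V) : Finset V :=
  match M with
  | v :: u :: _ => (G.nb v).erase u
  | _ => ∅

lemma wt_sum {v u : V} {K : List V} (huv : u ∈ G.nb v) :
    ∑ w ∈ nxt G (v :: u :: K), wt G (w :: v :: u :: K) = wt G (v :: u :: K) := by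
  obtain ⟨a, b, hnb, hab, hau, hbu, ha, hb⟩ := G.tri huv
  have hd : G.pos v - G.pos u ≠ 0 := by
    have := G.unit (G.symm huv)
    intro h; rw [h] at this; simp at this
  have hn : nxt G (v :: u :: K) = {a, b} := by
    simp only [nxt, hnb]
    ext y
    simp only [Finset.mem_erase, Finset.mem_insert, Finset.mem_singleton]
    constructor
    · rintro ⟨h1, h2 | h2 | h2⟩
      · exact absurd h2 h1
      · exact Or.inl h2
      · exact Or.inr h2
    · rintro (rfl | rfl)
      · exact ⟨hau, Or.inr (Or.inl rfl)⟩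
      · exact ⟨hbu, Or.inr (Or.inr rfl)⟩
  rw [hn, Finset.sum_pair hab]
  have key : ∀ (w : V) (t : ℝ), t = Real.pi / 3 ∨ t = -(Real.pi / 3) →
      G.pos w - G.pos v = (G.pos v - G.pos u) * ee t →
      wt G (w :: v :: u :: K) = wt G (v :: u :: K) * (xc * ee (3 / 8 * t)) := by
    intro w t ht hw
    have hpi := Real.pi_pos
    have hth : th (G.pos v - G.pos w) (G.pos u - G.pos v) = -t := by
      apply th_of (r := 1)
      · intro h
        have h2 : G.pos w - G.pos v = 0 := by rw [← neg_sub, h, neg_zero]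
        rw [hw] at h2
        exact (mul_ne_zero hd (ee_ne t)) h2
      · exact one_pos
      · rcases ht with rfl | rfl <;> linarith
      · rcases ht with rfl | rfl <;> linarith
      · have e1 : G.pos v - G.pos w = -(G.pos w - G.pos v) := by ring
        rw [e1, hw, ee_neg]
        have := ee_ne t
        push_cast
        field_simp
        ring
    simp only [wt, List.map_cons, T_cons₃, hth]
    rw [hw, mul_add, ee_add]
    have : ee (3 / 8 * t) = ee t * ee (5 / 8 * -t) := by
      rw [← ee_add]; congr 1; ring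
    rw [this, List.length_cons, pow_succ]
    ring
  rw [key a _ (Or.inl rfl) ha, key b _ (Or.inr rfl) hb, ← mul_add, ← mul_add]
  have e1 : (3 / 8 * (Real.pi / 3) : ℝ) = Real.pi / 8 := by ring
  have e2 : (3 / 8 * (-(Real.pi / 3)) : ℝ) = -(Real.pi / 8) := by ring
  rw [e1, e2, ee_add_neg, ← Complex.ofReal_mul, xc_mul]
  simp

end HexPF
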