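import Pool.Agent.HexPF.Main

/-!
The honeycomb lattice in the coordinates `(X, j) ↦ X / 2 + j * sqrt 3 / 2 * I`.
-/

set_option autoImplicit false

namespace HexPF

open Complex

/-- position of `(X, j)` -/
noncomputable def hpos (v : ℤ × ℤ) : ℂ := ⟨(v.1 : ℝ) / 2, (v.2 : ℝ) * (Real.sqrt 3 / 2)⟩

/-- neighbours in the honeycomb lattice; vertices of type `false` have `X % 3 = 0`, those of type
`true` have `X % 3 = 2`; the parities of `X` and `j` agree -/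
def hnb (v : ℤ × ℤ) : Finset (ℤ × ℤ) :=
  if (v.1 + v.2) % 2 = 0 ∧ v.1 % 3 = 0 then
    {(v.1 + 2, v.2), (v.1 - 1, v.2 + 1), (v.1 - 1, v.2 - 1)}
  else if (v.1 + v.2) % 2 = 0 ∧ v.1 % 3 = 2 then
    {(v.1 - 2, v.2), (v.1 + 1, v.2 - 1), (v.1 + 1, v.2 + 1)}
  else ∅

lemma mem_hnb {u v : ℤ × ℤ} : u ∈ hnb v ↔
    (v.1 + v.2) % 2 = 0 ∧
    ((v.1 % 3 = 0 ∧ (u.1 = v.1 + 2 ∧ u.2 = v.2 ∨ u.1 = v.1 - 1 ∧ u.2 = v.2 + 1 ∨
        u.1 = v.1 - 1 ∧ u.2 = v.2 - 1)) ∨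
     (v.1 % 3 = 2 ∧ (u.1 = v.1 - 2 ∧ u.2 = v.2 ∨ u.1 = v.1 + 1 ∧ u.2 = v.2 - 1 ∨
        u.1 = v.1 + 1 ∧ u.2 = v.2 + 1))) := by
  unfold hnb
  split_ifs with h1 h2
  · simp only [Finset.mem_insert, Finset.mem_singleton, Prod.ext_iff]
    omega
  · simp only [Finset.mem_insert, Finset.mem_singleton, Prod.ext_iff]
    omega
  · simp only [Finset.notMem_empty, false_iff]
    omega

lemma hpos_sub (u v : ℤ × ℤ) : hpos v - hpos u =
    ⟨((v.1 - u.1 : ℤ) : ℝ) / 2, ((v.2 - u.2 : ℤ) : ℝ) * (Real.sqrt 3 / 2)⟩ := by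
  apply Complex.ext
  · simp [hpos]; ring
  · simp [hpos]; ring

lemma norm_sq_hpos_sub (u v : ℤ × ℤ) : ‖hpos v - hpos u‖ ^ 2 =
    (((v.1 - u.1) ^ 2 + 3 * (v.2 - u.2) ^ 2 : ℤ) : ℝ) / 4 := by
  rw [hpos_sub, Complex.sq_norm, Complex.normSq_mk]
  have h3 : Real.sqrt 3 * Real.sqrt 3 = 3 := Real.mul_self_sqrt (by norm_num)
  push_cast
  linear_combination (((v.2 : ℝ) - u.2) ^ 2 / 4) * h3

lemma norm_hpos_unit {u v : ℤ × ℤ} (h : (v.1 - u.1) ^ 2 + 3 * (v.2 - u.2) ^ 2 = 4) :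
    ‖hpos v - hpos u‖ = 1 := by
  have h2 := norm_sq_hpos_sub u v
  rw [h] at h2
  have : ‖hpos v - hpos u‖ ^ 2 = 1 := by rw [h2]; norm_num
  have h0 := norm_nonneg (hpos v - hpos u)
  nlinarith

lemma ee_third : ee (Real.pi / 3) = ⟨1 / 2, Real.sqrt 3 / 2⟩ := by
  unfold ee
  apply Complex.ext
  · rw [Complex.exp_ofReal_mul_I_re, Real.cos_pi_div_three]
  · rw [Complex.exp_ofReal_mul_I_im, Real.sin_pi_div_three]

lemma ee_neg_third : ee (-(Real.pi / 3)) = ⟨1 / 2, -(Real.sqrt 3 / 2)⟩ := by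
  unfold ee
  apply Complex.ext
  · rw [Complex.exp_ofReal_mul_I_re, Real.cos_neg, Real.cos_pi_div_three]
  · rw [Complex.exp_ofReal_mul_I_im, Real.sin_neg, Real.sin_pi_div_three]

/-- rotation by sixty degrees in coordinates -/
lemma rot_left {u v a : ℤ × ℤ} (h1 : 2 * (a.1 - v.1) = (v.1 - u.1) - 3 * (v.2 - u.2))
    (h2 : 2 * (a.2 - v.2) = (v.1 - u.1) + (v.2 - u.2)) :
    hpos a - hpos v = (hpos v - hpos u) * ee (Real.pi / 3) := by
  rw [hpos_sub, hpos_sub, ee_third]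
  have h3 : Real.sqrt 3 * Real.sqrt 3 = 3 := Real.mul_self_sqrt (by norm_num)
  have h1' : 2 * ((a.1 - v.1 : ℤ) : ℝ) = ((v.1 - u.1 : ℤ) : ℝ) - 3 * ((v.2 - u.2 : ℤ) : ℝ) := by
    exact_mod_cast h1
  have h2' : 2 * ((a.2 - v.2 : ℤ) : ℝ) = ((v.1 - u.1 : ℤ) : ℝ) + ((v.2 - u.2 : ℤ) : ℝ) := by
    exact_mod_cast h2
  apply Complex.ext
  · simp only [Complex.mul_re]
    linear_combination h1' / 4 + ((v.2 - u.2 : ℤ) : ℝ) / 4 * h3
  · simp only [Complex.mul_im]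
    linear_combination Real.sqrt 3 / 4 * h2'

lemma rot_right {u v a : ℤ × ℤ} (h1 : 2 * (a.1 - v.1) = (v.1 - u.1) + 3 * (v.2 - u.2))
    (h2 : 2 * (a.2 - v.2) = -(v.1 - u.1) + (v.2 - u.2)) :
    hpos a - hpos v = (hpos v - hpos u) * ee (-(Real.pi / 3)) := by
  rw [hpos_sub, hpos_sub, ee_neg_third]
  have h3 : Real.sqrt 3 * Real.sqrt 3 = 3 := Real.mul_self_sqrt (by norm_num)
  have h1' : 2 * ((a.1 - v.1 : ℤ) : ℝ) = ((v.1 - u.1 : ℤ) : ℝ) + 3 * ((v.2 - u.2 : ℤ) : ℝ) := by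
    exact_mod_cast h1
  have h2' : 2 * ((a.2 - v.2 : ℤ) : ℝ) = -((v.1 - u.1 : ℤ) : ℝ) + ((v.2 - u.2 : ℤ) : ℝ) := by
    exact_mod_cast h2
  apply Complex.ext
  · simp only [Complex.mul_re]
    linear_combination h1' / 4 - ((v.2 - u.2 : ℤ) : ℝ) / 4 * h3
  · simp only [Complex.mul_im]
    linear_combination Real.sqrt 3 / 4 * h2'

lemma hnb_far {u v : ℤ × ℤ} (hu : (u.1 + u.2) % 2 = 0) (hv : (v.1 + v.2) % 2 = 0) (h : u ≠ v) :
    1 ≤ ‖hpos v - hpos u‖ := by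
  have h2 := norm_sq_hpos_sub u v
  have h4 : (4 : ℤ) ≤ (v.1 - u.1) ^ 2 + 3 * (v.2 - u.2) ^ 2 := by
    have hx : v.1 - u.1 ≠ 0 ∨ v.2 - u.2 ≠ 0 := by
      by_contra hcon
      push Not at hcon
      apply h
      ext <;> omega
    obtain ⟨x, hx'⟩ : ∃ x, x = v.1 - u.1 := ⟨_, rfl⟩
    obtain ⟨y, hy'⟩ : ∃ y, y = v.2 - u.2 := ⟨_, rfl⟩
    have hpar : (x + y) % 2 = 0 := by omega
    rw [← hx', ← hy'] at hx ⊢
    rcases eq_or_ne y 0 with rfl | hy
    · have : x ≤ -2 ∨ 2 ≤ x := by omega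
      rcases this with h' | h' <;> nlinarith
    · rcases eq_or_ne x 0 with rfl | hx0
      · have : y ≤ -2 ∨ 2 ≤ y := by omega
        rcases this with h' | h' <;> nlinarith
      · have e1 : 1 ≤ x ^ 2 := by
          have : x ≤ -1 ∨ 1 ≤ x := by omega
          rcases this with h' | h' <;> nlinarith
        have e2 : 1 ≤ y ^ 2 := by
          have : y ≤ -1 ∨ 1 ≤ y := by omega
          rcases this with h' | h' <;> nlinarith
        linarith
  have h5 : (1 : ℝ) ≤ ‖hpos v - hpos u‖ ^ 2 := by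
    rw [h2]
    have : (4 : ℝ) ≤ (((v.1 - u.1) ^ 2 + 3 * (v.2 - u.2) ^ 2 : ℤ) : ℝ) := by exact_mod_cast h4
    linarith
  have h0 := norm_nonneg (hpos v - hpos u)
  nlinarith

lemma hnb_tri {u v : ℤ × ℤ} (h : u ∈ hnb v) : ∃ a b, hnb v = {u, a, b} ∧ a ≠ b ∧ a ≠ u ∧ b ≠ u ∧
    hpos a - hpos v = (hpos v - hpos u) * ee (Real.pi / 3) ∧
    hpos b - hpos v = (hpos v - hpos u) * ee (-(Real.pi / 3)) := by
  obtain ⟨v1, v2⟩ := v
  obtain ⟨u1, u2⟩ := u
  rw [mem_hnb] at h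
  simp only at h
  obtain ⟨hp, h | h⟩ := h
  · obtain ⟨h3, h | h | h⟩ := h <;> obtain ⟨e1, e2⟩ := h
    · refine ⟨(v1 - 1, v2 - 1), (v1 - 1, v2 + 1), ?_, ?_, ?_, ?_, ?_, ?_⟩
      · ext ⟨y1, y2⟩
        rw [mem_hnb]; simp only [Finset.mem_insert, Finset.mem_singleton, Prod.mk.injEq]; omega
      · simp only [ne_eq, Prod.mk.injEq]; omega
      · simp only [ne_eq, Prod.mk.injEq]; omega
      · simp only [ne_eq, Prod.mk.injEq]; omega
      · apply rot_left <;> simp only <;> omega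
      · apply rot_right <;> simp only <;> omega
    · refine ⟨(v1 + 2, v2), (v1 - 1, v2 - 1), ?_, ?_, ?_, ?_, ?_, ?_⟩
      · ext ⟨y1, y2⟩
        rw [mem_hnb]; simp only [Finset.mem_insert, Finset.mem_singleton, Prod.mk.injEq]; omega
      · simp only [ne_eq, Prod.mk.injEq]; omega
      · simp only [ne_eq, Prod.mk.injEq]; omega
      · simp only [ne_eq, Prod.mk.injEq]; omega
      · apply rot_left <;> simp only <;> omega
      · apply rot_right <;> simp only <;> omega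
    · refine ⟨(v1 - 1, v2 + 1), (v1 + 2, v2), ?_, ?_, ?_, ?_, ?_, ?_⟩
      · ext ⟨y1, y2⟩
        rw [mem_hnb]; simp only [Finset.mem_insert, Finset.mem_singleton, Prod.mk.injEq]; omega
      · simp only [ne_eq, Prod.mk.injEq]; omega
      · simp only [ne_eq, Prod.mk.injEq]; omega
      · simp only [ne_eq, Prod.mk.injEq]; omega
      · apply rot_left <;> simp only <;> omega
      · apply rot_right <;> simp only <;> omega
  · obtain ⟨h3, h | h | h⟩ := h <;> obtain ⟨e1, e2⟩ := h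
    · refine ⟨(v1 + 1, v2 + 1), (v1 + 1, v2 - 1), ?_, ?_, ?_, ?_, ?_, ?_⟩
      · ext ⟨y1, y2⟩
        rw [mem_hnb]; simp only [Finset.mem_insert, Finset.mem_singleton, Prod.mk.injEq]; omega
      · simp only [ne_eq, Prod.mk.injEq]; omega
      · simp only [ne_eq, Prod.mk.injEq]; omega
      · simp only [ne_eq, Prod.mk.injEq]; omega
      · apply rot_left <;> simp only <;> omega
      · apply rot_right <;> simp only <;> omega
    · refine ⟨(v1 - 2, v2), (v1 + 1, v2 + 1), ?_, ?_, ?_, ?_, ?_, ?_⟩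
      · ext ⟨y1, y2⟩
        rw [mem_hnb]; simp only [Finset.mem_insert, Finset.mem_singleton, Prod.mk.injEq]; omega
      · simp only [ne_eq, Prod.mk.injEq]; omega
      · simp only [ne_eq, Prod.mk.injEq]; omega
      · simp only [ne_eq, Prod.mk.injEq]; omega
      · apply rot_left <;> simp only <;> omega
      · apply rot_right <;> simp only <;> omega
    · refine ⟨(v1 + 1, v2 - 1), (v1 - 2, v2), ?_, ?_, ?_, ?_, ?_, ?_⟩
      · ext ⟨y1, y2⟩
        rw [mem_hnb]; simp only [Finset.mem_insert, Finset.mem_singleton, Prod.mk.injEq]; omega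
      · simp only [ne_eq, Prod.mk.injEq]; omega
      · simp only [ne_eq, Prod.mk.injEq]; omega
      · simp only [ne_eq, Prod.mk.injEq]; omega
      · apply rot_left <;> simp only <;> omega
      · apply rot_right <;> simp only <;> omega

/-- the honeycomb lattice -/
noncomputable def hexG : HexG (ℤ × ℤ) where
  pos := hpos
  nb := hnb
  symm := by
    intro u v h
    rw [mem_hnb] at h ⊢
    omega
  far := by
    rintro u v ⟨a, ha⟩ ⟨b, hb⟩ h
    rw [mem_hnb] at ha hb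
    exact hnb_far ha.1 hb.1 h
  unit := by
    intro u v h
    apply norm_hpos_unit
    rw [mem_hnb] at h
    obtain ⟨-, ⟨-, h | h | h⟩ | ⟨-, h | h | h⟩⟩ := h <;> rw [h.1, h.2] <;> ring
  tri := hnb_tri

end HexPF
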