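import Pool.Agent.HexPF.Ident

/-!
The closing walks cancel in pairs.
-/

set_option autoImplicit false

namespace HexPF

open Complex

variable {V : Type} [DecidableEq V] {G : HexG V} {Ω : Finset V} {v0 v1 : V}

/-- reverse the loop of `M` at `w` -/
def rv (w : V) (M : List V) : List V :=
  (M.takeWhile (fun y => decide (y ≠ w))).reverse ++ M.dropWhile (fun y => decide (y ≠ w))

lemma rv_append {w : V} {R K : List V} (h : w ∉ R) : rv w (R ++ w :: K) = R.reverse ++ w :: K := by
  have h1 : ∀ y ∈ R, decide (y ≠ w) = true := by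
    intro y hy
    simp only [ne_eq, decide_not, Bool.not_eq_true', decide_eq_false_iff_not]
    rintro rfl; exact h hy
  unfold rv
  rw [List.takeWhile_append_of_pos h1, List.dropWhile_append_of_pos h1]
  simp

lemma chain_ne {M : List V} (hch : M.IsChain (fun a b => a ∈ G.nb b)) (hlen : 2 ≤ M.length) :
    ∀ u ∈ M, (G.nb u).Nonempty := by
  induction M with
  | nil => intro u hu; simp at hu
  | cons a M ih =>
    rcases M with _ | ⟨b, M⟩
    · simp at hlen
    · intro u hu
      rw [List.isChain_cons_cons] at hch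
      rcases List.mem_cons.mp hu with rfl | hu
      · exact ⟨b, G.symm hch.1⟩
      · rcases M with _ | ⟨c, M⟩
        · simp at hu; subst hu; exact ⟨a, hch.1⟩
        · exact ih hch.2 (by simp) u hu

lemma st_map {M : List V} (hch : M.IsChain (fun a b => a ∈ G.nb b)) : St (M.map G.pos) := by
  unfold St
  rw [List.isChain_map]
  apply hch.imp
  intro a b hab
  exact G.unit (G.symm hab)

lemma far_map {M : List V} (hnd : M.Nodup) (hne : ∀ u ∈ M, (G.nb u).Nonempty) :
    Far (M.map G.pos) := by
  unfold Far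
  rw [List.pairwise_map]
  have h2 : M.Pairwise (fun a b => a ≠ b) := hnd
  apply List.Pairwise.imp_of_mem _ h2
  intro a b ha hb hab
  exact G.far (hne a ha) (hne b hb) hab

/-- decomposition of a closing walk -/
lemma split_loop (hadj : v1 ∈ G.nb v0) (h1 : v1 ∈ Ω) (h0 : v0 ∉ Ω) {n : ℕ} {M : List V}
    (hM : M ∈ W G Ω v0 v1 n) {w : V} (hw : w ∈ nxt G M) (hwΩ : w ∈ Ω) (hwM : w ∈ M) :
    ∃ q m z p rest, M = q :: m ++ [z] ++ w :: p :: rest ∧ w ∈ G.nb q ∧
      ∃ k, w :: p :: rest = k ++ [v1, v0] ∧ ∀ u ∈ k, u ∈ Ω := by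
  obtain ⟨hlen, hnd, hch, k, hk, hkΩ⟩ := (mem_W_iff hadj h1 h0).mp hM
  obtain ⟨R, K, hRK⟩ := List.append_of_mem hwM
  -- `M = v :: u :: _`
  rcases M with _ | ⟨v, M⟩
  · simp at hlen
  rcases M with _ | ⟨u, M⟩
  · simp at hlen
  simp only [nxt, Finset.mem_erase] at hw
  have hwv : w ≠ v := by
    rintro rfl
    have := G.unit hw.2
    simp at this
  rcases R with _ | ⟨q, R⟩
  · simp only [List.nil_append, List.cons.injEq] at hRK
    exact absurd hRK.1.symm hwv
  simp only [List.cons_append, List.cons.injEq] at hRK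
  obtain ⟨hvq, hRK⟩ := hRK
  rcases List.eq_nil_or_concat R with rfl | ⟨m, z, rfl⟩
  · simp only [List.nil_append, List.cons.injEq] at hRK
    exact absurd hRK.1.symm hw.1
  -- the tail
  have hwv0 : w ≠ v0 := by rintro rfl; exact h0 hwΩ
  have hK : K ≠ [] := by
    rintro rfl
    have h2 : (v :: u :: M).getLast? = some v0 := by
      rw [hk]
      have : k ++ [v1, v0] = (k ++ [v1]) ++ [v0] := by simp
      rw [this, List.getLast?_concat]
    rw [hRK, ← List.cons_append, List.getLast?_concat] at h2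
    exact hwv0 (by simpa using h2)
  obtain ⟨p, rest, rfl⟩ := List.exists_cons_of_ne_nil hK
  refine ⟨q, m, z, p, rest, ?_, ?_, ?_⟩
  · rw [hvq, hRK]; simp
  · rw [← hvq]; exact hw.2
  · -- `w :: p :: rest` ends with `v1, v0`
    have e : q :: (m ++ [z]) ++ w :: p :: rest = k ++ [v1, v0] := by
      rw [← hk, hvq, hRK]; simp
    have hrest : ∃ k', w :: p :: rest = k' ++ [v1, v0] := by
      rcases List.eq_nil_or_concat (p :: rest) with h | ⟨a, x, hax⟩
      · simp at h
      · rcases List.eq_nil_or_concat (w :: a) with h | ⟨b, y, hby⟩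
        · simp at h
        · refine ⟨b, ?_⟩
          rw [List.concat_eq_append] at hax hby
          have h3 : w :: p :: rest = b ++ [y] ++ [x] := by
            rw [hax, ← List.cons_append, hby]
          rw [h3] at e
          have h4 : (q :: (m ++ [z]) ++ b ++ [y]) ++ [x] = (k ++ [v1]) ++ [v0] := by
            simpa using e
          obtain ⟨h5, h6⟩ := List.append_inj' h4 rfl
          obtain ⟨h7, h8⟩ := List.append_inj' h5 rfl
          rw [h3]
          simp only [List.cons.injEq, and_true] at h6 h8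
          rw [h6, h8]; simp
    obtain ⟨k', hk'⟩ := hrest
    refine ⟨k', hk', ?_⟩
    intro y hy
    apply hkΩ
    rw [hk'] at e
    have h4 : (q :: (m ++ [z]) ++ k') ++ [v1, v0] = k ++ [v1, v0] := by
      simpa using e
    obtain ⟨h5, -⟩ := List.append_inj' h4 rfl
    rw [← h5]
    simp [hy]

/-- The reversed loop is again a closing walk. -/
lemma rv_mem (hadj : v1 ∈ G.nb v0) (h1 : v1 ∈ Ω) (h0 : v0 ∉ Ω) {n : ℕ} {M : List V}
    (hM : M ∈ W G Ω v0 v1 n) {w : V} (hw : w ∈ nxt G M) (hwΩ : w ∈ Ω) (hwM : w ∈ M) :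
    rv w M ∈ W G Ω v0 v1 n ∧ w ∈ nxt G (rv w M) ∧ w ∈ rv w M ∧ rv w (rv w M) = M ∧ rv w M ≠ M := by
  obtain ⟨q, m, z, p, rest, hMe, hwq, k, hk, hkΩ⟩ := split_loop hadj h1 h0 hM hw hwΩ hwM
  obtain ⟨hlen, hnd, hch, k2, hk2, hkΩ2⟩ := (mem_W_iff hadj h1 h0).mp hM
  rw [hMe] at hnd hch hlen
  have hwR : w ∉ q :: m ++ [z] := by
    rw [List.nodup_append] at hnd
    intro h
    exact hnd.2.2 w h w (by simp) rfl
  have hwR' : w ∉ (q :: m ++ [z]).reverse := by rw [List.mem_reverse]; exact hwR
  have hrv : rv w M = (q :: m ++ [z]).reverse ++ w :: p :: rest := by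
    rw [hMe, rv_append hwR]
  have hrev : (q :: m ++ [z]).reverse = z :: m.reverse ++ [q] := by simp
  have hzw : z ∈ G.nb w := by
    have h2 : (q :: m ++ [z] ++ w :: p :: rest) = (q :: m) ++ z :: w :: p :: rest := by simp
    rw [h2, List.isChain_append] at hch
    exact (List.isChain_cons_cons.mp hch.2.1).1
  refine ⟨?_, ?_, ?_, ?_, ?_⟩
  · rw [hrv, mem_W_iff hadj h1 h0]
    refine ⟨by simp at hlen ⊢; omega, ?_, ?_, ?_⟩
    · rw [List.nodup_append] at hnd ⊢
      refine ⟨List.nodup_reverse.mpr hnd.1, hnd.2.1, ?_⟩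
      intro a ha b hb
      exact hnd.2.2 a (List.mem_reverse.mp ha) b hb
    · rw [List.isChain_append] at hch ⊢
      refine ⟨?_, hch.2.1, ?_⟩
      · rw [List.isChain_reverse]
        apply hch.1.imp
        intro a b hab
        exact G.symm hab
      · intro x hx y hy
        rw [hrev] at hx
        have hx' : x = q := by
          rw [List.getLast?_concat] at hx; simpa using hx.symm
        simp at hy
        subst hx'; subst hy
        exact G.symm hwq
    · refine ⟨(q :: m ++ [z]).reverse ++ k, ?_, ?_⟩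
      · rw [hk]; simp
      · intro u hu
        rw [List.mem_append] at hu
        rcases hu with hu | hu
        · rw [List.mem_reverse] at hu
          -- `u` is in the walk, and is not `v1` or `v0` at the end
          have h3 : k2 = (q :: m ++ [z]) ++ k := by
            have e : (q :: m ++ [z] ++ k) ++ [v1, v0] = k2 ++ [v1, v0] := by
              rw [← hk2, hMe, hk]; simp
            exact (List.append_inj' e rfl).1.symm
          apply hkΩ2
          rw [h3]
          simp only [List.mem_append]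
          simp only [List.mem_append] at hu
          exact Or.inl hu
        · exact hkΩ u hu
  · rw [hrv, hrev]
    obtain ⟨c, k3, hk3⟩ : ∃ c k3, m.reverse ++ [q] = c :: k3 := by
      rcases m.reverse with _ | ⟨c, l⟩
      · exact ⟨q, [], rfl⟩
      · exact ⟨c, l ++ [q], rfl⟩
    have hc : c ∈ m.reverse ++ [q] := by rw [hk3]; simp
    simp only [List.cons_append]
    rw [hk3]
    simp only [List.cons_append, nxt, Finset.mem_erase]
    refine ⟨?_, G.symm hzw⟩
    rintro rfl
    apply hwR
    simp at hc ⊢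
    tauto
  · rw [hrv]; simp
  · rw [hrv, rv_append hwR', List.reverse_reverse, hMe]
  · rw [hrv, hMe]
    intro h
    have h2 := (List.append_inj' h rfl).1
    rw [hrev] at h2
    simp only [List.cons_append, List.cons.injEq] at h2
    rw [List.nodup_append] at hnd
    have h3 := hnd.1
    rw [List.cons_append, List.nodup_cons] at h3
    apply h3.1
    rw [← h2.1]; simp

/-- the sum of the weights of the two closing walks of a pair vanishes -/
lemma wt_pair (hadj : v1 ∈ G.nb v0) (h1 : v1 ∈ Ω) (h0 : v0 ∉ Ω) {d : ℂ}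
    (hh : ∀ u ∈ Ω, Ac d (G.pos u - G.pos v0)) {n : ℕ} {M : List V}
    (hM : M ∈ W G Ω v0 v1 n) {w : V} (hw : w ∈ nxt G M) (hwΩ : w ∈ Ω) (hwM : w ∈ M) :
    wt G (w :: M) + wt G (w :: rv w M) = 0 := by
  have hrvm := rv_mem hadj h1 h0 hM hw hwΩ hwM
  obtain ⟨q, m, z, p, rest, hMe, hwq, k, hk, hkΩ⟩ := split_loop hadj h1 h0 hM hw hwΩ hwM
  obtain ⟨hlen, hnd, hch, k2, hk2, hkΩ2⟩ := (mem_W_iff hadj h1 h0).mp hM
  have hne := chain_ne hch (by omega)
  have hst := st_map hch
  have hfar := far_map hnd hne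
  rw [hMe] at hnd hch hlen hst hfar hne
  have hwR : w ∉ q :: m ++ [z] := by
    rw [List.nodup_append] at hnd
    intro h
    exact hnd.2.2 w h w (by simp) rfl
  have hrev : (q :: m ++ [z]).reverse = z :: m.reverse ++ [q] := by simp
  have hrv : rv w M = z :: m.reverse ++ [q] ++ w :: p :: rest := by
    rw [hMe, rv_append hwR, hrev]
  have hzw : z ∈ G.nb w ∧ p ∈ G.nb w := by
    have h2 : (q :: m ++ [z] ++ w :: p :: rest) = (q :: m) ++ z :: w :: p :: rest := by simp
    rw [h2, List.isChain_append] at hch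
    have h3 := List.isChain_cons_cons.mp hch.2.1
    exact ⟨h3.1, G.symm (List.isChain_cons_cons.mp h3.2).1⟩
  have hqw : q ∈ G.nb w := G.symm hwq
  -- the three neighbours of `w`
  have hqz : q ≠ z := by
    rintro rfl
    rw [List.nodup_append] at hnd
    have := hnd.1
    rw [List.cons_append, List.nodup_cons] at this
    exact this.1 (by simp)
  have hqp : q ≠ p := by
    rintro rfl
    rw [List.nodup_append] at hnd
    exact hnd.2.2 q (by simp) q (by simp) rfl
  have hzp : z ≠ p := by
    rintro rfl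
    rw [List.nodup_append] at hnd
    exact hnd.2.2 z (by simp) z (by simp) rfl
  obtain ⟨a, b, hnb, hab, hap, hbp, ha, hb⟩ := G.tri hzw.2
  have hcase : ∃ κ : ℝ, (κ = Real.pi / 6 ∨ κ = -(Real.pi / 6)) ∧
      G.pos q - G.pos w = (G.pos w - G.pos p) * ee (-(2 * κ)) ∧
      G.pos z - G.pos w = (G.pos w - G.pos p) * ee (2 * κ) := by
    have hq' := hqw
    have hz' := hzw.1
    rw [hnb] at hq' hz'
    simp only [Finset.mem_insert, Finset.mem_singleton] at hq' hz'
    rcases hq' with h | h | h
    · exact absurd h hqp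
    · rcases hz' with h' | h' | h'
      · exact absurd h' hzp
      · exact absurd (h.trans h'.symm) hqz
      · refine ⟨-(Real.pi / 6), Or.inr rfl, ?_, ?_⟩
        · rw [h, ha]; congr 2; ring
        · rw [h', hb]; congr 2; ring
    · rcases hz' with h' | h' | h'
      · exact absurd h' hzp
      · refine ⟨Real.pi / 6, Or.inl rfl, ?_, ?_⟩
        · rw [h, hb]; congr 2; ring
        · rw [h', ha]; congr 2; ring
      · exact absurd (h.trans h'.symm) hqz
  obtain ⟨κ, hκ, hqκ, hzκ⟩ := hcase
  -- last point of the tail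
  have hlast : (p :: rest).getLast? = some v0 := by
    have h2 : (w :: p :: rest).getLast? = some v0 := by
      rw [hk]
      have : k ++ [v1, v0] = (k ++ [v1]) ++ [v0] := by simp
      rw [this, List.getLast?_concat]
    rwa [List.getLast?_cons_cons] at h2
  have hlast' : ((p :: rest).map G.pos).getLast? = some (G.pos v0) := by
    rw [List.getLast?_map, hlast]; rfl
  have hloopΩ : ∀ u ∈ w :: (q :: m ++ [z]), u ∈ Ω := by
    intro u hu
    rcases List.mem_cons.mp hu with rfl | hu
    · exact hwΩ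
    · have h3 : k2 = (q :: m ++ [z]) ++ k := by
        have e : (q :: m ++ [z] ++ k) ++ [v1, v0] = k2 ++ [v1, v0] := by
          rw [← hk2, hMe, hk]; simp
        exact (List.append_inj' e rfl).1.symm
      apply hkΩ2
      rw [h3]
      simp only [List.mem_append]
      simp only [List.mem_append] at hu
      exact Or.inl hu
  have hhh : ∀ u ∈ G.pos w :: (G.pos q :: m.map G.pos ++ [G.pos z]), Ac d (u - G.pos v0) := by
    intro u hu
    have : u ∈ (w :: (q :: m ++ [z])).map G.pos := by simpa using hu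
    obtain ⟨y, hy, rfl⟩ := List.mem_map.mp this
    exact hh y (hloopΩ y hy)
  have t1 := loop_turn (m.map G.pos) (rest.map G.pos) (G.pos p) (G.pos w) (G.pos q) (G.pos z)
    (G.pos v0) d κ hκ (by simpa using hst) (by simpa using hfar) (by simpa using hlast') hhh hqκ hzκ
  -- the reversed walk
  obtain ⟨hlen', hnd', hch', -⟩ := (mem_W_iff hadj h1 h0).mp hrvm.1
  have hne' := chain_ne hch' (by omega)
  have hst' := st_map hch'
  have hfar' := far_map hnd' hne'
  rw [hrv] at hst' hfar'
  have hhh' : ∀ u ∈ G.pos w :: (G.pos z :: m.reverse.map G.pos ++ [G.pos q]),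
      Ac d (u - G.pos v0) := by
    intro u hu
    apply hhh
    simp at hu ⊢
    rcases hu with h | h | h | h
    · exact Or.inl h
    · exact Or.inr (Or.inr (Or.inr h))
    · exact Or.inr (Or.inr (Or.inl h))
    · exact Or.inr (Or.inl h)
  have t2 := loop_turn (m.reverse.map G.pos) (rest.map G.pos) (G.pos p) (G.pos w) (G.pos z)
    (G.pos q) (G.pos v0) d (-κ) (by
      rcases hκ with rfl | rfl
      · right; rfl
      · left; ring) (by simpa using hst') (by simpa using hfar') (by simpa using hlast') hhh'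
    (by rw [hzκ]; congr 2; ring) (by rw [hqκ]; congr 2; ring)
  have e1 : T ((w :: M).map G.pos) = 8 * κ + T ((w :: p :: rest).map G.pos) := by
    rw [hMe]
    simpa using t1
  have e2 : T ((w :: rv w M).map G.pos) = 8 * (-κ) + T ((w :: p :: rest).map G.pos) := by
    rw [hrv]
    simpa using t2
  have hw1 : wt G (w :: M) = (G.pos w - G.pos q) * ee (5 / 8 * T ((w :: M).map G.pos)) *
      ((xc : ℂ) ^ (M.length - 1)) := by
    rw [hMe]; simp [wt]
  have hw2 : wt G (w :: rv w M) = (G.pos w - G.pos z) * ee (5 / 8 * T ((w :: rv w M).map G.pos)) *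
      ((xc : ℂ) ^ (M.length - 1)) := by
    have : (rv w M).length = M.length := by rw [hrv, hMe]; simp
    rw [← this, hrv]; simp [wt]
  rw [hw1, hw2, e1, e2]
  set τ := T ((w :: p :: rest).map G.pos) with hτ
  have f1 : ee (5 / 8 * (8 * κ + τ)) = ee (5 * κ) * ee (5 / 8 * τ) := by
    rw [← ee_add]; congr 1; ring
  have f2 : ee (5 / 8 * (8 * -κ + τ)) = ee (-(5 * κ)) * ee (5 / 8 * τ) := by
    rw [← ee_add]; congr 1; ring
  have g1 : G.pos w - G.pos q = -((G.pos w - G.pos p) * ee (-(2 * κ))) := by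
    rw [← hqκ]; ring
  have g2 : G.pos w - G.pos z = -((G.pos w - G.pos p) * ee (2 * κ)) := by
    rw [← hzκ]; ring
  rw [f1, f2, g1, g2]
  have h3 : ee (-(2 * κ)) * ee (5 * κ) + ee (2 * κ) * ee (-(5 * κ)) = 0 := by
    rw [← ee_add, ← ee_add]
    have a1 : -(2 * κ) + 5 * κ = 3 * κ := by ring
    have a2 : 2 * κ + -(5 * κ) = -(3 * κ) := by ring
    rw [a1, a2, ee_add_neg]
    have : Real.cos (3 * κ) = 0 := by
      rcases hκ with rfl | rfl
      · have : 3 * (Real.pi / 6) = Real.pi / 2 := by ring
        rw [this, Real.cos_pi_div_two]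
      · have : 3 * -(Real.pi / 6) = -(Real.pi / 2) := by ring
        rw [this, Real.cos_neg, Real.cos_pi_div_two]
    rw [this]; simp
  linear_combination (-(G.pos w - G.pos p) * ee (5 / 8 * τ) * (xc : ℂ) ^ (M.length - 1)) * h3

end HexPF
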