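import Pool.Agent.HexPF.Loop

/-!
The parafermionic identity.
-/

set_option autoImplicit false

namespace HexPF

open Complex

variable {V : Type} [DecidableEq V] {G : HexG V} {Ω : Finset V} {v0 v1 : V}

variable (G Ω v0 v1) in
/-- exits of the walks with `n + 1` vertices: pairs (walk, next vertex outside) -/
def Ex (n : ℕ) : Finset (Σ _ : List V, V) :=
  (W G Ω v0 v1 n).sigma fun M => (nxt G M).filter fun w => w ∉ Ω

lemma W_succ_sum (hadj : v1 ∈ G.nb v0) (h1 : v1 ∈ Ω) (h0 : v0 ∉ Ω) (n : ℕ) (f : List V → ℂ) :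
    ∑ M ∈ W G Ω v0 v1 (n + 1), f M =
      ∑ M ∈ W G Ω v0 v1 n, ∑ w ∈ (nxt G M).filter (fun w => w ∈ Ω ∧ w ∉ M), f (w :: M) := by
  rw [Finset.sum_sigma']
  symm
  apply Finset.sum_bij (fun x _ => x.2 :: x.1)
  · rintro ⟨M, w⟩ hx
    simp only [Finset.mem_sigma, Finset.mem_filter] at hx
    obtain ⟨hM, hw, hwΩ, hwM⟩ := hx
    rw [mem_W_succ]
    rcases M with _ | ⟨v, M⟩
    · simp [nxt] at hw
    rcases M with _ | ⟨u, M⟩
    · simp [nxt] at hw
    · simp only [nxt, Finset.mem_erase] at hw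
      exact ⟨w, v, u :: M, rfl, hM, hw.2, hwΩ, hwM⟩
  · rintro ⟨M, w⟩ _ ⟨M', w'⟩ _ h
    simp only [List.cons.injEq] at h
    obtain ⟨rfl, rfl⟩ := h
    rfl
  · intro M hM
    rw [mem_W_succ] at hM
    obtain ⟨w, v, K, rfl, hK, hw, hwΩ, hwn⟩ := hM
    refine ⟨⟨v :: K, w⟩, ?_, rfl⟩
    simp only [Finset.mem_sigma, Finset.mem_filter]
    refine ⟨hK, ?_, hwΩ, hwn⟩
    obtain ⟨hlen, -⟩ := (mem_W_iff hadj h1 h0).mp hK
    rcases K with _ | ⟨u, K⟩
    · simp at hlen
    · simp only [nxt, Finset.mem_erase]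
      refine ⟨?_, hw⟩
      rintro rfl
      exact hwn (by simp)
  · rintro ⟨M, w⟩ _
    rfl

lemma closing_sum (hadj : v1 ∈ G.nb v0) (h1 : v1 ∈ Ω) (h0 : v0 ∉ Ω) {d : ℂ}
    (hh : ∀ u ∈ Ω, Ac d (G.pos u - G.pos v0)) (n : ℕ) :
    ∑ M ∈ W G Ω v0 v1 n, ∑ w ∈ (nxt G M).filter (fun w => w ∈ Ω ∧ w ∈ M), wt G (w :: M) = 0 := by
  rw [Finset.sum_sigma']
  refine Finset.sum_involution (fun x _ => ⟨rv x.2 x.1, x.2⟩) ?_ ?_ ?_ ?_
  · rintro ⟨M, w⟩ hx
    simp only [Finset.mem_sigma, Finset.mem_filter] at hx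
    exact wt_pair hadj h1 h0 hh hx.1 hx.2.1 hx.2.2.1 hx.2.2.2
  · rintro ⟨M, w⟩ hx _ h
    simp only [Finset.mem_sigma, Finset.mem_filter] at hx
    simp only [Sigma.mk.injEq, heq_eq_eq, and_true] at h
    exact (rv_mem hadj h1 h0 hx.1 hx.2.1 hx.2.2.1 hx.2.2.2).2.2.2.2 h
  · rintro ⟨M, w⟩ hx
    simp only [Finset.mem_sigma, Finset.mem_filter] at hx ⊢
    have := rv_mem hadj h1 h0 hx.1 hx.2.1 hx.2.2.1 hx.2.2.2
    exact ⟨this.1, this.2.1, hx.2.2.1, this.2.2.1⟩
  · rintro ⟨M, w⟩ hx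
    simp only [Finset.mem_sigma, Finset.mem_filter] at hx
    have := rv_mem hadj h1 h0 hx.1 hx.2.1 hx.2.2.1 hx.2.2.2
    simp only [this.2.2.2.1]

lemma level_sum (hadj : v1 ∈ G.nb v0) (h1 : v1 ∈ Ω) (h0 : v0 ∉ Ω) {d : ℂ}
    (hh : ∀ u ∈ Ω, Ac d (G.pos u - G.pos v0)) (n : ℕ) :
    ∑ M ∈ W G Ω v0 v1 n, wt G M = ∑ x ∈ Ex G Ω v0 v1 n, wt G (x.2 :: x.1) +
      ∑ M ∈ W G Ω v0 v1 (n + 1), wt G M := by
  rw [W_succ_sum hadj h1 h0, Ex, Finset.sum_sigma, ← Finset.sum_add_distrib]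
  rw [← add_zero (∑ M ∈ W G Ω v0 v1 n, (_ + _)), ← closing_sum hadj h1 h0 hh n,
    ← Finset.sum_add_distrib]
  apply Finset.sum_congr rfl
  intro M hM
  obtain ⟨hlen, hnd, hch, -⟩ := (mem_W_iff hadj h1 h0).mp hM
  have hsum : ∑ w ∈ nxt G M, wt G (w :: M) = wt G M := by
    rcases M with _ | ⟨v, M⟩
    · simp at hlen
    rcases M with _ | ⟨u, M⟩
    · simp at hlen
    · apply wt_sum
      exact G.symm (List.isChain_cons_cons.mp hch).1
  rw [← hsum]
  have e1 := Finset.sum_filter_add_sum_filter_not (nxt G M) (fun w => w ∉ Ω) (fun w => wt G (w :: M))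
  have e2 := Finset.sum_filter_add_sum_filter_not ((nxt G M).filter (fun w => ¬ w ∉ Ω))
    (fun w => w ∉ M) (fun w => wt G (w :: M))
  rw [Finset.filter_filter, Finset.filter_filter] at e2
  simp only [not_not] at e1 e2
  rw [← e1, ← e2]
  ring

/-- **Parafermionic identity.** -/
theorem identity (hadj : v1 ∈ G.nb v0) (h1 : v1 ∈ Ω) (h0 : v0 ∉ Ω) {d : ℂ}
    (hh : ∀ u ∈ Ω, Ac d (G.pos u - G.pos v0)) {N : ℕ} (hN : Ω.card ≤ N) :
    ∑ n ∈ Finset.range N, ∑ x ∈ Ex G Ω v0 v1 n, wt G (x.2 :: x.1) = G.pos v1 - G.pos v0 := by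
  have htel : ∀ N : ℕ, ∑ n ∈ Finset.range N, ∑ x ∈ Ex G Ω v0 v1 n, wt G (x.2 :: x.1) +
      ∑ M ∈ W G Ω v0 v1 N, wt G M = G.pos v1 - G.pos v0 := by
    intro N
    induction N with
    | zero => simp [W, wt]
    | succ N ih =>
      rw [Finset.sum_range_succ, ← ih, level_sum hadj h1 h0 hh N]
      ring
  have hempty : W G Ω v0 v1 N = ∅ := by
    rw [Finset.eq_empty_iff_forall_notMem]
    intro M hM
    obtain ⟨hlen, hnd, hch, k, hk, hkΩ⟩ := (mem_W_iff hadj h1 h0).mp hM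
    have hk1 : M = (k ++ [v1]) ++ [v0] := by rw [hk]; simp
    have hnd1 : (k ++ [v1]).Nodup := by
      rw [hk1] at hnd
      exact (List.nodup_append.mp hnd).1
    have hsub : (k ++ [v1]).toFinset ⊆ Ω := by
      intro u hu
      rw [List.mem_toFinset, List.mem_append] at hu
      rcases hu with hu | hu
      · exact hkΩ u hu
      · simp at hu; rw [hu]; exact h1
    have hc := Finset.card_le_card hsub
    rw [List.toFinset_card_of_nodup hnd1] at hc
    rw [hk] at hlen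
    simp at hlen hc
    omega
  have := htel N
  rw [hempty, Finset.sum_empty, add_zero] at this
  exact this

variable (G v0 v1) in
/-- the winding of an exit walk with last step `v → w`, in terms of the positions only -/
noncomputable def Wd (v w : V) : ℝ :=
  th (G.pos v1 - G.pos v0) (G.pos w - G.pos v0) - th (G.pos w - G.pos v) (G.pos w - G.pos v0)

variable (G v0) in
/-- the exit `v → w` is convex: `w` sees the whole domain and `v0` in the half plane opposite to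
the exit direction, and `v0` sees `w` in the half plane of the domain -/
def CvxExit (Ω : Finset V) (v1 v w : V) : Prop :=
  (∀ u ∈ Ω, Ac (G.pos v - G.pos w) (G.pos u - G.pos w)) ∧
  0 ≤ ((G.pos w - G.pos v0) / (G.pos v1 - G.pos v0)).re ∧
  0 ≤ ((G.pos v0 - G.pos w) / (G.pos v - G.pos w)).re

lemma ee_th {u v : ℂ} (hu : ‖u‖ = 1) : v = u * (‖v‖ * ee (th u v)) := by
  have hu0 : u ≠ 0 := by intro h; rw [h] at hu; simp at hu
  have h := Complex.norm_mul_exp_arg_mul_I (v / u)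
  rw [norm_div, hu, div_one] at h
  unfold ee th
  rw [h]; field_simp

/-- the head of a walk is in `Ω` -/
lemma head_mem (hadj : v1 ∈ G.nb v0) (h1 : v1 ∈ Ω) (h0 : v0 ∉ Ω) {n : ℕ} {v u : V} {K : List V}
    (hM : v :: u :: K ∈ W G Ω v0 v1 n) : v ∈ Ω := by
  obtain ⟨hlen, hnd, hch, k, hk, hkΩ⟩ := (mem_W_iff hadj h1 h0).mp hM
  rcases k with _ | ⟨y, k⟩
  · simp only [List.nil_append, List.cons.injEq] at hk
    rw [hk.1]; exact h1
  · simp only [List.cons_append, List.cons.injEq] at hk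
    rw [hk.1]; exact hkΩ y (by simp)

/-- exits are different from the starting point -/
lemma exit_ne (hadj : v1 ∈ G.nb v0) (h1 : v1 ∈ Ω) (h0 : v0 ∉ Ω)
    (hh : ∀ u ∈ Ω, Ac (G.pos v1 - G.pos v0) (G.pos u - G.pos v0)) {n : ℕ} {v u w : V} {K : List V}
    (hM : v :: u :: K ∈ W G Ω v0 v1 n) (hw : w ∈ nxt G (v :: u :: K)) : w ≠ v0 := by
  have hvΩ := head_mem hadj h1 h0 hM
  obtain ⟨hlen, hnd, hch, k, hk, hkΩ⟩ := (mem_W_iff hadj h1 h0).mp hM
  simp only [nxt, Finset.mem_erase] at hw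
  have hd0 : ‖G.pos v1 - G.pos v0‖ = 1 := G.unit hadj
  have hd0' : G.pos v1 - G.pos v0 ≠ 0 := by intro h; rw [h] at hd0; simp at hd0
  rintro rfl
  -- then `v` is a neighbour of `v0` in `Ω`, so `v = v1`, and `u = v0`
  have hv : v ∈ G.nb w := G.symm hw.2
  obtain ⟨a, b, hnb, hab, hav, hbv, ha, hb⟩ := G.tri hadj
  have hvv1 : v = v1 := by
    by_contra hne1
    have hva : Ac (G.pos v1 - G.pos w) (G.pos v - G.pos w) := hh v hvΩ
    have hnb2 := G.tri (u := v1) (v := w) hadj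
    obtain ⟨a, b, hnb, hab, hav, hbv, ha, hb⟩ := hnb2
    rw [hnb] at hv
    simp only [Finset.mem_insert, Finset.mem_singleton] at hv
    have hcos : Real.cos (Real.pi / 3) = 1 / 2 := Real.cos_pi_div_three
    have hre : ∀ t : ℝ, (t = Real.pi / 3 ∨ t = -(Real.pi / 3)) → ∀ y : V,
        G.pos y - G.pos w = (G.pos w - G.pos v1) * ee t →
        ¬ Ac (G.pos v1 - G.pos w) (G.pos y - G.pos w) := by
      intro t ht y hy hA
      unfold Ac at hA
      have e : (G.pos y - G.pos w) / (G.pos v1 - G.pos w) = - ee t := by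
        rw [hy]
        have : G.pos w - G.pos v1 = -(G.pos v1 - G.pos w) := by ring
        rw [this]; field_simp
      rw [e, Complex.neg_re] at hA
      unfold ee at hA
      rw [Complex.exp_ofReal_mul_I_re] at hA
      rcases ht with rfl | rfl
      · rw [hcos] at hA; linarith
      · rw [Real.cos_neg, hcos] at hA; linarith
    rcases hv with h | h | h
    · exact hne1 h
    · exact hre _ (Or.inl rfl) a ha (h ▸ hva)
    · exact hre _ (Or.inr rfl) b hb (h ▸ hva)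
  subst hvv1
  -- nodup forces `k = []`
  rcases k with _ | ⟨y, k⟩
  · simp only [List.nil_append, List.cons.injEq] at hk
    exact hw.1 hk.2.1.symm
  · simp only [List.cons_append, List.cons.injEq] at hk
    rw [List.nodup_cons] at hnd
    apply hnd.1
    rw [hk.2]; simp

/-- weight of a convex exit walk -/
lemma wt_exit (hadj : v1 ∈ G.nb v0) (h1 : v1 ∈ Ω) (h0 : v0 ∉ Ω)
    (hh : ∀ u ∈ Ω, Ac (G.pos v1 - G.pos v0) (G.pos u - G.pos v0)) {n : ℕ} {v u w : V} {K : List V}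
    (hM : v :: u :: K ∈ W G Ω v0 v1 n) (hw : w ∈ nxt G (v :: u :: K)) (hwΩ : w ∉ Ω)
    (hc : CvxExit G v0 Ω v1 v w) :
    wt G (w :: v :: u :: K) = (G.pos v1 - G.pos v0) * (ee (3 / 8 * Wd G v0 v1 v w) *
      (xc : ℂ) ^ (n + 1)) := by
  obtain ⟨hlen, hnd, hch, k, hk, hkΩ⟩ := (mem_W_iff hadj h1 h0).mp hM
  have hne := chain_ne hch (by omega)
  simp only [nxt, Finset.mem_erase] at hw
  -- `v0` is not `w`
  have hd0 : ‖G.pos v1 - G.pos v0‖ = 1 := G.unit hadj
  have hd0' : G.pos v1 - G.pos v0 ≠ 0 := by intro h; rw [h] at hd0; simp at hd0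
  have hwv : ‖G.pos w - G.pos v‖ = 1 := G.unit hw.2
  have hwv' : G.pos w - G.pos v ≠ 0 := by intro h; rw [h] at hwv; simp at hwv
  have hvΩ : v ∈ Ω := head_mem hadj h1 h0 hM
  have hw0 : w ≠ v0 := exit_ne hadj h1 h0 hh hM (by simp only [nxt, Finset.mem_erase]; exact hw)
  -- the list with `w` in front
  have hk1 : v :: u :: K = (k ++ [v1]) ++ [v0] := by rw [hk]; simp
  have hwM : w ∉ v :: u :: K := by
    rw [hk1]
    intro h
    rw [List.mem_append, List.mem_append] at h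
    rcases h with (h | h) | h
    · exact hwΩ (hkΩ w h)
    · simp at h; rw [h] at hwΩ; exact hwΩ h1
    · simp at h; exact hw0 h
  have hch' : (w :: v :: u :: K).IsChain (fun a b => a ∈ G.nb b) :=
    List.isChain_cons_cons.mpr ⟨hw.2, hch⟩
  have hnd' : (w :: v :: u :: K).Nodup := List.nodup_cons.mpr ⟨hwM, hnd⟩
  have hne' := chain_ne hch' (by simp)
  have hst := st_map hch'
  have hfar := far_map hnd' hne'
  obtain ⟨l, hl⟩ : ∃ l, v :: l = k ++ [v1] ∧ u :: K = l ++ [v0] := by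
    rcases k with _ | ⟨y, k⟩
    · simp only [List.nil_append, List.cons.injEq] at hk
      exact ⟨[], by simp [hk.1], by simp [hk.2]⟩
    · simp only [List.cons_append, List.cons.injEq] at hk
      exact ⟨k ++ [v1], by simp [hk.1], by simp [hk.2]⟩
  have hlΩ : ∀ y ∈ v :: l, y ∈ Ω := by
    intro y hy
    rw [hl.1, List.mem_append] at hy
    rcases hy with hy | hy
    · exact hkΩ y hy
    · simp at hy; rw [hy]; exact h1
  have hT := exit_turn (l.map G.pos) (G.pos w) (G.pos v) (G.pos v1) (G.pos v0)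
    (by rw [hl.2] at hst; simpa using hst) (by rw [hl.2] at hfar; simpa using hfar)
    (by
      have : (v :: l).getLast? = some v1 := by rw [hl.1, List.getLast?_concat]
      have h3 : ((v :: l).map G.pos).getLast? = some (G.pos v1) := by
        rw [List.getLast?_map, this]; rfl
      simpa using h3)
    (by
      intro y hy
      have : y ∈ (v :: l).map G.pos := by simpa using hy
      obtain ⟨y', hy', rfl⟩ := List.mem_map.mp this
      exact hh y' (hlΩ y' hy'))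
    (by
      intro y hy
      have : y ∈ (v :: l).map G.pos := by simpa using hy
      obtain ⟨y', hy', rfl⟩ := List.mem_map.mp this
      exact hc.1 y' (hlΩ y' hy')) hc.2.1 hc.2.2
  have hT' : T ((w :: v :: u :: K).map G.pos) = - Wd G v0 v1 v w := by
    rw [hl.2]
    unfold Wd
    simp only [List.map_cons, List.map_append, List.map_nil] at hT ⊢
    simp only [List.cons_append] at hT
    rw [hT]; ring
  have hlenK : (u :: K).length = n + 1 := by simp at hlen ⊢; omega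
  have hdir : G.pos w - G.pos v = (G.pos v1 - G.pos v0) * ee (Wd G v0 v1 v w) := by
    have a1 := ee_th (v := G.pos w - G.pos v0) hd0
    have a2 := ee_th (v := G.pos w - G.pos v0) hwv
    have hr : (‖G.pos w - G.pos v0‖ : ℂ) ≠ 0 := by
      rw [Ne, Complex.ofReal_eq_zero, norm_eq_zero, sub_eq_zero]
      intro h
      have : 1 ≤ ‖G.pos w - G.pos v0‖ := by
        apply G.far ⟨v1, hadj⟩ (hne' w (by simp)) (Ne.symm hw0)
      rw [h, sub_self, norm_zero] at this
      linarith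
    unfold Wd
    rw [sub_eq_add_neg (th (G.pos v1 - G.pos v0) (G.pos w - G.pos v0)), ee_add, ee_neg]
    have b := a1.symm.trans a2
    have hee := ee_ne (th (G.pos w - G.pos v) (G.pos w - G.pos v0))
    field_simp
    have b2 : (‖G.pos w - G.pos v0‖ : ℂ) * ((G.pos v1 - G.pos v0) *
        ee (th (G.pos v1 - G.pos v0) (G.pos w - G.pos v0))) =
        (‖G.pos w - G.pos v0‖ : ℂ) * ((G.pos w - G.pos v) *
        ee (th (G.pos w - G.pos v) (G.pos w - G.pos v0))) := by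
      linear_combination b
    have b3 := mul_left_cancel₀ hr b2
    linear_combination -b3
  have hwt : wt G (w :: v :: u :: K) = (G.pos w - G.pos v) *
      ee (5 / 8 * T ((w :: v :: u :: K).map G.pos)) * (xc : ℂ) ^ (u :: K).length := rfl
  rw [hwt, hT', hlenK, hdir]
  have : ee (Wd G v0 v1 v w) * ee (5 / 8 * -Wd G v0 v1 v w) = ee (3 / 8 * Wd G v0 v1 v w) := by
    rw [← ee_add]; congr 1; ring
  rw [← this]; ring

/-- **The identity in a convex domain**: every exit is convex. -/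
theorem identity_convex (hadj : v1 ∈ G.nb v0) (h1 : v1 ∈ Ω) (h0 : v0 ∉ Ω)
    (hh : ∀ u ∈ Ω, Ac (G.pos v1 - G.pos v0) (G.pos u - G.pos v0))
    (hc : ∀ v ∈ Ω, ∀ w ∈ G.nb v, w ∉ Ω → w ≠ v0 → CvxExit G v0 Ω v1 v w)
    {N : ℕ} (hN : Ω.card ≤ N) :
    ∑ n ∈ Finset.range N, ∑ x ∈ Ex G Ω v0 v1 n,
      Real.cos (3 / 8 * Wd G v0 v1 (x.1.headD v0) x.2) * xc ^ (n + 1) = 1 := by
  have hid := identity hadj h1 h0 hh hN
  have hd0 : ‖G.pos v1 - G.pos v0‖ = 1 := G.unit hadj
  have hd0' : G.pos v1 - G.pos v0 ≠ 0 := by intro h; rw [h] at hd0; simp at hd0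
  have e : ∑ n ∈ Finset.range N, ∑ x ∈ Ex G Ω v0 v1 n, wt G (x.2 :: x.1) =
      (G.pos v1 - G.pos v0) * ∑ n ∈ Finset.range N, ∑ x ∈ Ex G Ω v0 v1 n,
        (ee (3 / 8 * Wd G v0 v1 (x.1.headD v0) x.2) * (xc : ℂ) ^ (n + 1)) := by
    rw [Finset.mul_sum]
    apply Finset.sum_congr rfl
    intro n _
    rw [Finset.mul_sum]
    apply Finset.sum_congr rfl
    rintro ⟨M, w⟩ hx
    simp only [Ex, Finset.mem_sigma, Finset.mem_filter] at hx
    obtain ⟨hM, hw, hwΩ⟩ := hx
    rcases M with _ | ⟨v, M⟩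
    · simp [nxt] at hw
    rcases M with _ | ⟨u, M⟩
    · simp [nxt] at hw
    · have hv := head_mem hadj h1 h0 hM
      have hw0 := exit_ne hadj h1 h0 hh hM hw
      have hwv : w ∈ G.nb v := by
        simp only [nxt, Finset.mem_erase] at hw; exact hw.2
      exact wt_exit hadj h1 h0 hh hM hw hwΩ (hc v hv w hwv hwΩ hw0)
  rw [e] at hid
  have h2 : ∑ n ∈ Finset.range N, ∑ x ∈ Ex G Ω v0 v1 n,
        (ee (3 / 8 * Wd G v0 v1 (x.1.headD v0) x.2) * (xc : ℂ) ^ (n + 1)) = 1 := by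
    apply mul_left_cancel₀ hd0'
    rw [hid, mul_one]
  have h3 := congrArg Complex.re h2
  rw [Complex.re_sum, Complex.one_re] at h3
  rw [← h3]
  apply Finset.sum_congr rfl
  intro n _
  rw [Complex.re_sum]
  apply Finset.sum_congr rfl
  intro x _
  rw [← Complex.ofReal_pow, Complex.re_mul_ofReal]
  unfold ee
  rw [Complex.exp_ofReal_mul_I_re]

end HexPF
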