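import Pool.Agent.HexPF.Hopf

/-!
Turning of exit walks (half-plane lemmas) and of closing loops.
-/

set_option autoImplicit false

namespace HexPF

open Complex

lemma th_self {d : ℂ} (hd : d ≠ 0) : th d d = 0 := by simp [th, hd]

lemma th_diff {d u v : ℂ} (hd : d ≠ 0) (hu : u ≠ 0) (hv : v ≠ 0)
    (h : |th d u| < Real.pi / 2 ∧ |th d v| ≤ Real.pi / 2 ∨
      |th d u| ≤ Real.pi / 2 ∧ |th d v| < Real.pi / 2) :
    th u v = th d v - th d u := by
  have hpi := Real.pi_pos
  have hb : -Real.pi < th d v - th d u ∧ th d v - th d u < Real.pi ∧ th d u < Real.pi := by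
    rcases h with ⟨h1, h2⟩ | ⟨h1, h2⟩
    · have a := _root_.abs_lt.mp h1
      have b := _root_.abs_le.mp h2
      refine ⟨?_, ?_, ?_⟩ <;> linarith [a.1, a.2, b.1, b.2]
    · have a := _root_.abs_le.mp h1
      have b := _root_.abs_lt.mp h2
      refine ⟨?_, ?_, ?_⟩ <;> linarith [a.1, a.2, b.1, b.2]
  unfold th at *
  have e : v / u = (v / d) * (u / d)⁻¹ := by field_simp
  have hne : Complex.arg (u / d) ≠ Real.pi := hb.2.2.ne
  have hinv : Complex.arg (u / d)⁻¹ = - Complex.arg (u / d) := by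
    rw [Complex.arg_inv, if_neg hne]
  rw [e, Complex.arg_mul (div_ne_zero hv hd) (inv_ne_zero (div_ne_zero hu hd)), hinv]
  · ring
  · rw [hinv]
    constructor <;> linarith [hb.1, hb.2.1]

/-- a path in an open half-plane with boundary through the view point -/
lemma N_half (x d : ℂ) : ∀ (l : List ℂ) (c z : ℂ), (∀ u ∈ c :: l, Ac d (u - x)) →
    (c :: l).getLast? = some z → N x (c :: l) = th d (z - x) - th d (c - x) := by
  intro l
  induction l with
  | nil =>
    intro c z _ hz
    simp only [List.getLast?_singleton, Option.some.injEq] at hz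
    subst hz; simp
  | cons b l ih =>
    intro c z h hz
    have := ih b z (fun u hu => h u (List.mem_cons_of_mem _ hu))
      (by rwa [List.getLast?_cons_cons] at hz)
    have hc := h c (by simp)
    have hb := h b (by simp)
    rw [N_cons₂, this, th_diff hc.ne_left hc.ne_right hb.ne_right (Or.inl ⟨hc.abs_lt, hb.abs_lt.le⟩)]
    ring

lemma gl (l : List ℂ) (a : ℂ) : (l ++ [a]).getLast? = some a := by simp

lemma N_closed_half (x d : ℂ) (l : List ℂ) (c : ℂ) (h : ∀ u ∈ c :: l, Ac d (u - x)) :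
    N x (c :: l ++ [c]) = 0 := by
  have := N_half x d (l ++ [c]) c c (by
    intro u hu
    apply h
    simp at hu ⊢
    tauto) (gl (c :: l) c)
  rw [List.cons_append, this]; ring

lemma abs_th_le {d u : ℂ} (h : 0 ≤ (u / d).re) : |th d u| ≤ Real.pi / 2 :=
  Complex.abs_arg_le_pi_div_two_iff.mpr h

/-- turning of an exit walk, listed backwards: `w :: c :: l ++ [v0]` -/
lemma exit_turn (l : List ℂ) (w c v1 v0 : ℂ) (hs : St (w :: c :: l ++ [v0]))
    (hf : Far (w :: c :: l ++ [v0])) (hv1 : (c :: l).getLast? = some v1)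
    (h0 : ∀ u ∈ c :: l, Ac (v1 - v0) (u - v0)) (h1 : ∀ u ∈ c :: l, Ac (c - w) (u - w))
    (h0w : 0 ≤ ((w - v0) / (v1 - v0)).re) (h1v : 0 ≤ ((v0 - w) / (c - w)).re) :
    T (w :: c :: l ++ [v0]) = th (w - c) (w - v0) - th (v1 - v0) (w - v0) := by
  have hop := hopf (c :: l) w v0 (by simpa using hs) (by simpa using hf)
  have hwv : w - v0 ≠ 0 := by
    intro h
    have : 1 ≤ ‖v0 - w‖ := by
      unfold Far at hf
      exact (List.pairwise_cons.mp hf).1 v0 (by simp)
    rw [norm_sub_rev, h] at this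
    simp at this
    linarith
  have hc0 := h0 c (by simp)
  have hc1 := h1 c (by simp)
  -- second term
  have e2 : N v0 (w :: c :: l) = - th (v1 - v0) (w - v0) := by
    rw [N_cons₂, N_half v0 (v1 - v0) l c v1 h0 hv1,
      th_diff hc0.ne_left hwv hc0.ne_right (Or.inr ⟨abs_th_le h0w, hc0.abs_lt⟩),
      th_self hc0.ne_left]
    ring
  -- first term
  have hm : v1 ∈ c :: l := by
    exact List.mem_of_getLast? hv1
  obtain ⟨k, hk⟩ : ∃ k, c :: l = k ++ [v1] := by
    have hne : c :: l ≠ [] := by simp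
    refine ⟨(c :: l).dropLast, ?_⟩
    have h2 := List.getLast?_eq_getLast_of_ne_nil hne
    rw [hv1] at h2
    have h3 : (c :: l).getLast hne = v1 := by
      simpa using h2.symm
    rw [← h3, List.dropLast_append_getLast]
  have hv1w := h1 v1 hm
  have e1 : N w (c :: l ++ [v0]) = th (c - w) (v0 - w) := by
    have ha := N_append w k v1 v0 []
    rw [hk]
    have : k ++ [v1] ++ [v0] = k ++ [v1] ++ v0 :: [] := rfl
    rw [this, ha, ← hk, N_half w (c - w) l c v1 h1 hv1, N_single, th_self hc1.ne_left,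
      th_diff hc1.ne_left hv1w.ne_right (by
        intro h; apply hwv; rw [← neg_sub, h, neg_zero])
        (Or.inl ⟨hv1w.abs_lt, abs_th_le h1v⟩)]
    ring
  have e3 : th (c - w) (v0 - w) = th (w - c) (w - v0) := by
    rw [← th_neg (c - w) (v0 - w), neg_sub, neg_sub]
  simp only [List.cons_append] at hop e1 ⊢
  rw [hop, e1, e2, e3]
  exact (sub_eq_add_neg _ _).symm

/-! ### local computations -/

/-- the unit vector `exp (i t)` -/
noncomputable def ee (t : ℝ) : ℂ := Complex.exp ((t : ℂ) * I)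

lemma ee_ne (t : ℝ) : ee t ≠ 0 := Complex.exp_ne_zero _
lemma ee_add (s t : ℝ) : ee (s + t) = ee s * ee t := by
  unfold ee; rw [← Complex.exp_add]; push_cast; ring_nf
@[simp] lemma ee_zero : ee 0 = 1 := by simp [ee]
lemma ee_neg (t : ℝ) : ee (-t) = (ee t)⁻¹ := by
  unfold ee; rw [← Complex.exp_neg]; push_cast; ring_nf
lemma norm_ee (t : ℝ) : ‖ee t‖ = 1 := by
  unfold ee; exact Complex.norm_exp_ofReal_mul_I t
lemma ee_pi : ee Real.pi = -1 := by unfold ee; exact Complex.exp_pi_mul_I
lemma ee_add_neg (t : ℝ) : ee t + ee (-t) = ((2 * Real.cos t : ℝ) : ℂ) := by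
  unfold ee
  push_cast
  rw [Complex.two_cos]

lemma th_of {u v : ℂ} {r t : ℝ} (hu : u ≠ 0) (hr : 0 < r) (h1 : -Real.pi < t) (h2 : t ≤ Real.pi)
    (h : v = u * ((r : ℂ) * ee t)) : th u v = t := by
  unfold th
  rw [h, mul_div_cancel_left₀ _ hu]
  unfold ee
  rw [Complex.exp_mul_I]
  exact Complex.arg_mul_cos_add_sin_mul_I hr ⟨h1, h2⟩

lemma cos_kappa {κ : ℝ} (h : κ = Real.pi / 6 ∨ κ = -(Real.pi / 6)) : 0 < Real.cos κ := by
  rcases h with rfl | rfl
  · rw [Real.cos_pi_div_six]; positivity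
  · rw [Real.cos_neg, Real.cos_pi_div_six]; positivity

lemma ee_six {κ : ℝ} (h : κ = Real.pi / 6 ∨ κ = -(Real.pi / 6)) : ee κ ^ 6 = -1 := by
  unfold ee
  rw [← Complex.exp_nat_mul]
  rcases h with rfl | rfl
  · have : ((6 : ℕ) : ℂ) * (((Real.pi / 6 : ℝ) : ℂ) * I) = (Real.pi : ℂ) * I := by
      push_cast; ring
    rw [this, Complex.exp_pi_mul_I]
  · have : ((6 : ℕ) : ℂ) * (((-(Real.pi / 6) : ℝ) : ℂ) * I) = -((Real.pi : ℂ) * I) := by
      push_cast; ring
    rw [this, Complex.exp_neg, Complex.exp_pi_mul_I]; norm_num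

/-- The total turning of a closing loop, listed backwards: the walk arrives at `v` from `p`, turns by
`2 κ` to `z`, runs to `q` and returns to `v`. -/
lemma loop_turn (m rest : List ℂ) (p v q z x0 d : ℂ) (κ : ℝ)
    (hκ : κ = Real.pi / 6 ∨ κ = -(Real.pi / 6))
    (hs : St (q :: m ++ [z] ++ v :: p :: rest)) (hf : Far (q :: m ++ [z] ++ v :: p :: rest))
    (hx0 : (p :: rest).getLast? = some x0)
    (hh : ∀ u ∈ v :: (q :: m ++ [z]), Ac d (u - x0))
    (hq : q - v = (v - p) * ee (-(2 * κ))) (hz : z - v = (v - p) * ee (2 * κ)) :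
    T (v :: (q :: m ++ [z]) ++ v :: p :: rest) = 8 * κ + T (v :: p :: rest) := by
  have hpi := Real.pi_pos
  have hpv : ‖v - p‖ = 1 := by
    unfold St at hs
    rw [List.isChain_append] at hs
    have := hs.2.1
    have := (List.isChain_cons_cons.mp this).1
    rwa [norm_sub_rev]
  have hd0 : v - p ≠ 0 := by intro h; rw [h] at hpv; simp at hpv
  have hqv : ‖q - v‖ = 1 := by rw [hq, norm_mul, hpv, norm_ee, one_mul]
  have hzv : ‖z - v‖ = 1 := by rw [hz, norm_mul, hpv, norm_ee, one_mul]
  have hvz : ‖v - z‖ = 1 := by rwa [norm_sub_rev]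
  -- the closed loop
  have hsR : St (q :: m ++ [z]) := by
    unfold St at *
    exact (List.isChain_append.mp hs).1
  have hfR : Far (q :: m ++ [z]) := by
    unfold Far at *
    exact (List.pairwise_append.mp hf).1
  have hfRv : ∀ u ∈ q :: m ++ [z], ∀ y ∈ v :: p :: rest, 1 ≤ ‖y - u‖ := by
    unfold Far at hf
    exact (List.pairwise_append.mp hf).2.2
  have hfv : ∀ y ∈ p :: rest, 1 ≤ ‖y - v‖ := by
    unfold Far at hf
    exact (List.pairwise_cons.mp (List.pairwise_append.mp hf).2.1).1
  have hspr : St (p :: rest) := by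
    unfold St at *
    have := (List.isChain_append.mp hs).2.1
    exact (List.isChain_cons_cons.mp this).2
  have hsC : St (v :: (q :: m ++ [z]) ++ [v]) := by
    unfold St at *
    rw [List.isChain_append]
    refine ⟨?_, by simp, ?_⟩
    · rw [List.cons_append, List.isChain_cons_cons]
      exact ⟨hqv, by simpa using hsR⟩
    · intro x hx y hy
      have hx' : x = z := by
        rw [← List.cons_append, List.getLast?_append] at hx
        simp at hx
        exact hx.symm
      simp at hy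
      subst hy; subst hx'
      exact hvz
  have hdist : ∀ y ∈ p :: rest, ∀ u ∈ v :: (q :: m ++ [z]) ++ [v], 1 ≤ ‖u - y‖ := by
    intro y hy u hu
    have hu' : u = v ∨ u ∈ q :: m ++ [z] := by
      simp at hu ⊢; tauto
    rcases hu' with rfl | hu'
    · rw [norm_sub_rev]; exact hfv y hy
    · rw [norm_sub_rev]; exact hfRv u hu' y (List.mem_cons_of_mem _ hy)
  -- winding zero around every point of the tail
  have hwz : ∀ (k : List ℂ) (y : ℂ), St (y :: k) → (y :: k).getLast? = some x0 →
      (∀ y' ∈ y :: k, ∀ u ∈ v :: (q :: m ++ [z]) ++ [v], 1 ≤ ‖u - y'‖) →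
      N y (v :: (q :: m ++ [z]) ++ [v]) = 0 := by
    intro k
    induction k with
    | nil =>
      intro y _ hl _
      simp only [List.getLast?_singleton, Option.some.injEq] at hl
      subst hl
      exact N_closed_half y d _ v hh
    | cons y2 k ih =>
      intro y hsy hl hdy
      have h1 : St (y2 :: k) := by
        unfold St at *; exact (List.isChain_cons_cons.mp hsy).2
      have h2 : ‖y - y2‖ = 1 := by
        unfold St at hsy; rw [norm_sub_rev]; exact (List.isChain_cons_cons.mp hsy).1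
      have h3 := ih y2 h1 (by rwa [List.getLast?_cons_cons] at hl)
        (fun y' hy' => hdy y' (List.mem_cons_of_mem _ hy'))
      have h4 := N_move h2 ((q :: m ++ [z]) ++ [v]) v v (by simpa using hsC)
        (by
          intro u hu
          exact hdy y2 (by simp) u (by simpa using hu))
        (by
          intro u hu
          exact hdy y (by simp) u (by simpa using hu))
        (gl (v :: (q :: m ++ [z])) v)
      rw [List.cons_append, h4]
      rw [List.cons_append] at h3
      rw [h3]; ring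
  have hNp := hwz rest p hspr hx0 hdist
  -- `N v R`
  have hmvR : N v (q :: m ++ [z]) = N p (q :: m ++ [z]) + th (z - p) (z - v) - th (q - p) (q - v) := by
    rw [List.cons_append]
    apply N_move hpv (m ++ [z]) q z
    · simpa using hsR
    · intro u hu
      rw [norm_sub_rev]; exact hfRv u (by simpa using hu) p (by simp)
    · intro u hu
      rw [norm_sub_rev]; exact hfRv u (by simpa using hu) v (by simp)
    · exact gl (q :: m) z
  have hNp2 : N p (v :: (q :: m ++ [z]) ++ [v]) =
      th (v - p) (q - p) + N p (q :: m ++ [z]) + th (z - p) (v - p) := by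
    have := N_append p (q :: m) z v []
    rw [N_single, add_zero] at this
    simp only [List.cons_append] at this ⊢
    rw [N_cons₂, this]; ring
  -- the six angles
  have hc := cos_kappa hκ
  have h6 := ee_six hκ
  have hk1 : -Real.pi < κ ∧ κ ≤ Real.pi ∧ -Real.pi < -κ ∧ -κ ≤ Real.pi := by
    rcases hκ with rfl | rfl <;> refine ⟨?_, ?_, ?_, ?_⟩ <;> linarith
  have hk2 : -Real.pi < -(2 * κ) ∧ -(2 * κ) ≤ Real.pi := by
    rcases hκ with rfl | rfl <;> refine ⟨?_, ?_⟩ <;> linarith
  set D := v - p with hD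
  set E := ee κ with hE
  have hE0 : E ≠ 0 := ee_ne κ
  have hEneg : ee (-κ) = E⁻¹ := ee_neg κ
  have hE2 : ee (2 * κ) = E ^ 2 := by rw [two_mul, ee_add, sq]
  have hE2n : ee (-(2 * κ)) = (E ^ 2)⁻¹ := by rw [ee_neg, hE2]
  obtain ⟨C, hC⟩ : ∃ C : ℂ, C = E + E⁻¹ := ⟨_, rfl⟩
  have hCE : ((2 * Real.cos κ : ℝ) : ℂ) = C := by rw [← ee_add_neg, hEneg, hC]
  have hcpos : (0 : ℝ) < 2 * Real.cos κ := by linarith
  have hC0 : C ≠ 0 := by
    rw [← hCE]; exact_mod_cast hcpos.ne'
  have hci : ((1 / (2 * Real.cos κ) : ℝ) : ℂ) = C⁻¹ := by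
    rw [← hCE]; push_cast; rw [one_div]
  have hzp : z - p = D * (1 + E ^ 2) := by
    have : z - p = (z - v) + (v - p) := by ring
    rw [this, hz, hE2]; ring
  have hqp : q - p = D * (1 + (E ^ 2)⁻¹) := by
    have : q - p = (q - v) + (v - p) := by ring
    rw [this, hq, hE2n]; ring
  have hsq1 : 1 + E ^ 2 = C * E := by rw [hC]; field_simp; ring
  have hsq2 : 1 + (E ^ 2)⁻¹ = C * E⁻¹ := by rw [hC]; field_simp
  have hzp0 : z - p ≠ 0 := by
    rw [hzp, hsq1]; exact mul_ne_zero hd0 (mul_ne_zero hC0 hE0)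
  have hqp0 : q - p ≠ 0 := by
    rw [hqp, hsq2]; exact mul_ne_zero hd0 (mul_ne_zero hC0 (inv_ne_zero hE0))
  have hE6' : (E ^ 2)⁻¹ = -(E ^ 4) := by
    have : E ^ 2 * -(E ^ 4) = 1 := by
      have : E ^ 2 * -(E ^ 4) = -(E ^ 6) := by ring
      rw [this, h6]; norm_num
    exact inv_eq_of_mul_eq_one_right this
  have hzq : z - q = D * (E ^ 2 - (E ^ 2)⁻¹) := by
    have : z - q = (z - v) - (q - v) := by ring
    rw [this, hz, hq, hE2, hE2n]; ring
  have hzq2 : z - q = D * (E ^ 2 * (1 + E ^ 2)) := by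
    rw [hzq, hE6']; ring
  have hzq0 : z - q ≠ 0 := by
    rw [hzq2, hsq1]
    exact mul_ne_zero hd0 (mul_ne_zero (pow_ne_zero _ hE0) (mul_ne_zero hC0 hE0))
  have a1 : th D (q - p) = -κ := by
    apply th_of (r := 2 * Real.cos κ) hd0 hcpos hk1.2.2.1 hk1.2.2.2
    rw [hCE, hEneg, hqp, hsq2]
  have a2 : th (z - p) D = -κ := by
    apply th_of (r := 1 / (2 * Real.cos κ)) hzp0 (by positivity) hk1.2.2.1 hk1.2.2.2
    rw [hci, hEneg, hzp, hsq1]
    field_simp
  have a3 : th (z - p) (z - v) = κ := by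
    apply th_of (r := 1 / (2 * Real.cos κ)) hzp0 (by positivity) hk1.1 hk1.2.1
    rw [hci, hzp, hsq1, hz, hE2, ← hE]
    field_simp
  have a4 : th (q - p) (q - v) = -κ := by
    apply th_of (r := 1 / (2 * Real.cos κ)) hqp0 (by positivity) hk1.2.2.1 hk1.2.2.2
    rw [hci, hEneg, hqp, hsq2, hq, hE2n]
    field_simp
  have a5 : th (z - v) (z - q) = κ := by
    have hzv0 : z - v ≠ 0 := by rw [hz]; exact mul_ne_zero hd0 (ee_ne _)
    apply th_of (r := 2 * Real.cos κ) hzv0 hcpos hk1.1 hk1.2.1
    rw [hCE, hzq2, hz, hE2, hsq1, ← hE]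
    ring
  have a6 : th (z - q) (v - q) = κ := by
    apply th_of (r := 1 / (2 * Real.cos κ)) hzq0 (by positivity) hk1.1 hk1.2.1
    have : v - q = -(q - v) := by ring
    rw [this, hci, hzq2, hq, hE2n, hsq1, hE6', ← hE]
    field_simp
  have a7 : th (v - z) (p - v) = -(2 * κ) := by
    have hvz0 : v - z ≠ 0 := by
      intro h; rw [h] at hvz; simp at hvz
    apply th_of (r := 1) hvz0 one_pos hk2.1 hk2.2
    have e1 : v - z = -(z - v) := by ring
    have e2 : p - v = -D := by rw [hD]; ring
    rw [e1, e2, hz, hE2, hE2n]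
    push_cast
    field_simp
  -- closed turning
  have hcl := hopf_closed m v q z (by
      unfold St at *
      rw [List.cons_append, List.cons_append, List.isChain_cons_cons]
      exact ⟨hqv, by simpa using hsR⟩) (by
      unfold Far at *
      rw [List.cons_append, List.cons_append, List.pairwise_cons]
      refine ⟨?_, by simpa using hfR⟩
      intro u hu
      rw [norm_sub_rev]
      exact hfRv u (by simpa using hu) v (by simp)) hvz
  have hTapp : ∀ (l : List ℂ) (a b c : ℂ) (k : List ℂ),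
      T (l ++ a :: b :: c :: k) = T (l ++ [a, b]) + th (b - a) (c - b) + T (b :: c :: k) := by
    intro l
    induction l with
    | nil => intro a b c k; simp
    | cons y l ih =>
      intro a b c k
      rcases l with _ | ⟨y2, l⟩
      · simp; ring
      · have := ih a b c k
        rcases l with _ | ⟨y3, l⟩
        · simp only [List.cons_append, List.nil_append, T_cons₃] at this ⊢
          rw [this]; ring
        · simp only [List.cons_append, List.nil_append, T_cons₃] at this ⊢
          rw [this]; ring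
  have e1 : v :: (q :: m ++ [z]) ++ v :: p :: rest = (v :: q :: m) ++ z :: v :: p :: rest := by
    simp
  have e2 : v :: q :: m ++ [z] ++ [v] = (v :: q :: m) ++ [z, v] := by simp
  rw [e1, hTapp, ← e2, hcl, a7, a5, a6]
  have hNv : N v (q :: m ++ [z]) = 4 * κ := by
    rw [hmvR, a3, a4]
    have := hNp2
    rw [hNp, a1, a2] at this
    linarith
  rw [hNv]
  ring

end HexPF
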